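import Pool.Agent.Helper50.RF.Rainbow3
import Pool.Agent.Helper20.SW.Cone

/-!
# Case (a): a large family of pairs on thin lines
-/

set_option autoImplicit false
set_option linter.unusedSectionVars false

namespace Pool.Agent.Helper50.RF

open Finset Classical H20SW

variable {Y U E G P R : Type} [Fintype Y] [Fintype U] [Fintype E]

/-- points of a line -/
noncomputable def pts (C : Cone Y U E G P R) (l : E) : Finset Y := univ.filter fun y => C.on y l

theorem card_pts (C : Cone Y U E G P R) (l : E) : (pts C l).card = C.tl l := rfl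

theorem mem_pts {C : Cone Y U E G P R} {l : E} {y : Y} : y ∈ pts C l ↔ C.on y l := by
  unfold pts
  simp

/-- the number of fat lines through a point -/
theorem fat_through (C : Cone Y U E G P R) (p : ℕ) (y : Y) :
    (univ.filter (fun l => C.on y l ∧ p ≤ C.tl l)).card * (p - 1) ≤ Fintype.card Y := by
  set F := univ.filter (fun l => C.on y l ∧ p ≤ C.tl l) with hF
  have h1 : (F.biUnion (fun l => (pts C l).erase y)).card = ∑ l ∈ F, ((pts C l).erase y).card := by
    apply Finset.card_biUnion
    intro l hl m hm hlm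
    change Disjoint _ _
    rw [Finset.disjoint_left]
    intro x hx hx'
    rw [Finset.mem_erase, mem_pts] at hx hx'
    have hl' := (Finset.mem_filter.mp hl).2
    have hm' := (Finset.mem_filter.mp hm).2
    exact hlm (C.uniq x y l m hx.1 hx.2 hl'.1 hx'.2 hm'.1)
  have h2 : ∑ l ∈ F, (p - 1) ≤ ∑ l ∈ F, ((pts C l).erase y).card := by
    apply Finset.sum_le_sum
    intro l hl
    have hl' := (Finset.mem_filter.mp hl).2
    rw [Finset.card_erase_of_mem (mem_pts.mpr hl'.1), card_pts]
    exact Nat.sub_le_sub_right hl'.2 1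
  rw [Finset.sum_const, smul_eq_mul] at h2
  have h3 := Finset.card_le_univ (F.biUnion (fun l => (pts C l).erase y))
  omega

/-- there are at most `2 (t - 1)` ordered pairs with a given point -/
theorem pairs_through (C : Cone Y U E G P R) (l : E) (y : Y) :
    ((pts C l).offDiag.filter (fun q => q.1 = y ∨ q.2 = y)).card ≤ 2 * (C.tl l - 1) := by
  by_cases hy : C.on y l
  · have h1 : (pts C l).offDiag.filter (fun q => q.1 = y ∨ q.2 = y) ⊆
        ((pts C l).erase y).image (fun x => (y, x)) ∪ ((pts C l).erase y).image (fun x => (x, y)) := by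
      rintro ⟨x, x'⟩ hq
      rw [Finset.mem_filter, Finset.mem_offDiag] at hq
      obtain ⟨⟨h2, h3, h4⟩, h5⟩ := hq
      simp only at h2 h3 h4 h5
      rw [Finset.mem_union, Finset.mem_image, Finset.mem_image]
      rcases h5 with h5 | h5
      · left
        refine ⟨x', Finset.mem_erase.mpr ⟨?_, h3⟩, by rw [h5]⟩
        rintro rfl
        exact h4 h5
      · right
        refine ⟨x, Finset.mem_erase.mpr ⟨?_, h2⟩, by rw [h5]⟩
        rintro rfl
        exact h4 h5.symm
    refine (Finset.card_le_card h1).trans ((Finset.card_union_le _ _).trans ?_)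
    have h2 : ((pts C l).erase y).card = C.tl l - 1 := by
      rw [Finset.card_erase_of_mem (mem_pts.mpr hy), card_pts]
    have h3 := Finset.card_image_le (s := (pts C l).erase y) (f := fun x => (y, x))
    have h4 := Finset.card_image_le (s := (pts C l).erase y) (f := fun x => (x, y))
    omega
  · rw [Finset.card_eq_zero.mpr]
    · exact Nat.zero_le _
    · rw [Finset.filter_eq_empty_iff]
      rintro ⟨x, x'⟩ hq h5
      rw [Finset.mem_offDiag, mem_pts, mem_pts] at hq
      rcases h5 with h5 | h5
      · exact hy (h5 ▸ hq.1)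
      · exact hy (h5 ▸ hq.2.1)

theorem card_off (C : Cone Y U E G P R) (l : E) :
    ((pts C l).offDiag.card : ℝ) = (C.tl l : ℝ) * ((C.tl l : ℝ) - 1) := by
  rw [Finset.offDiag_card, card_pts]
  have h : C.tl l ≤ C.tl l * C.tl l := Nat.le_mul_self _
  rw [Nat.cast_sub h]
  push_cast
  ring

theorem two_le_tl (C : Cone Y U E G P R) (l : E) : 2 ≤ C.tl l := by
  obtain ⟨x, y, hxy, hx, hy⟩ := C.two l
  rw [← card_pts]
  have h1 : ({x, y} : Finset Y) ⊆ pts C l := by
    intro u hu
    rw [Finset.mem_insert, Finset.mem_singleton] at hu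
    rw [mem_pts]
    rcases hu with rfl | rfl
    · exact hx
    · exact hy
  have h2 := Finset.card_le_card h1
  rwa [Finset.card_pair hxy] at h2

/-- the factor of a user -/
noncomputable def cz (C : Cone Y U E G P R) (J : Finset E) (e : ℝ) (z : U) : ℝ :=
  if C.Bad J z then 1 else 1 / (1 + e)

/-- the fat weights -/
noncomputable def W1 (C : Cone Y U E G P R) (J : Finset E) (p : ℕ) (e : ℝ) (z : U) (l : E)
    (q : Y × Y) : ℝ :=
  if (C.ok z l ∧ p ≤ C.tl l) ∧ q ∈ (pts C l).offDiag then
    cz C J e z / (((Fintype.card Y : ℝ) - C.tl l) * (pts C l).offDiag.card) else 0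

/-- the thin weights -/
noncomputable def W2 (C : Cone Y U E G P R) (J : Finset E) (α β : E → Y) (z : U) (l : E)
    (q : Y × Y) : ℝ :=
  if (C.ok z l ∧ l ∈ J) ∧ q = (α l, β l) then 1 / (2 * (Fintype.card Y : ℝ)) else 0

section

variable {C : Cone Y U E G P R} {J : Finset E} {p : ℕ} {e : ℝ} {α β : E → Y}

theorem cz_nonneg (he : 0 ≤ e) (z : U) : 0 ≤ cz C J e z := by
  unfold cz
  split_ifs
  · norm_num
  · positivity

theorem cz_le (he : 0 ≤ e) (z : U) : cz C J e z ≤ 1 := by
  unfold cz
  split_ifs
  · norm_num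
  · rw [div_le_one (by linarith)]
    linarith

theorem W1_nonneg (he : 0 ≤ e) (hNt : ∀ l, (C.tl l : ℝ) < Fintype.card Y) (z : U) (l : E)
    (q : Y × Y) : 0 ≤ W1 C J p e z l q := by
  unfold W1
  split_ifs
  · apply div_nonneg (cz_nonneg he z)
    apply mul_nonneg
    · linarith [hNt l]
    · positivity
  · exact le_rfl

theorem W2_nonneg (z : U) (l : E) (q : Y × Y) : 0 ≤ W2 C J α β z l q := by
  unfold W2
  split_ifs
  · positivity
  · exact le_rfl

/-- total of a fat line -/
theorem sum_W1 (hNt : ∀ l, (C.tl l : ℝ) < Fintype.card Y) (z : U) (l : E) :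
    ∑ q, W1 C J p e z l q = if C.ok z l ∧ p ≤ C.tl l then
      cz C J e z / ((Fintype.card Y : ℝ) - C.tl l) else 0 := by
  unfold W1
  by_cases h : C.ok z l ∧ p ≤ C.tl l
  · rw [if_pos h]
    have h1 : ∀ q : Y × Y, (if (C.ok z l ∧ p ≤ C.tl l) ∧ q ∈ (pts C l).offDiag then
        cz C J e z / (((Fintype.card Y : ℝ) - C.tl l) * (pts C l).offDiag.card) else 0) =
        if q ∈ (pts C l).offDiag then
        cz C J e z / (((Fintype.card Y : ℝ) - C.tl l) * (pts C l).offDiag.card) else 0 := by
      intro q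
      simp only [h, true_and]
    rw [Finset.sum_congr rfl (fun q _ => h1 q), ← Finset.sum_filter, Finset.sum_const,
      nsmul_eq_mul]
    have h2 : univ.filter (fun q : Y × Y => q ∈ (pts C l).offDiag) = (pts C l).offDiag := by
      ext q
      simp
    rw [h2]
    have h3 : (0 : ℝ) < (pts C l).offDiag.card := by
      rw [card_off]
      have h4 : (2 : ℝ) ≤ C.tl l := by exact_mod_cast two_le_tl C l
      have h5 : (0 : ℝ) < (C.tl l : ℝ) - 1 := by linarith
      positivity
    have h4 : (0 : ℝ) < (Fintype.card Y : ℝ) - C.tl l := by linarith [hNt l]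
    field_simp
  · rw [if_neg h]
    apply Finset.sum_eq_zero
    intro q _
    rw [if_neg (fun h' => h h'.1)]

theorem sum_W2 (z : U) (l : E) :
    ∑ q, W2 C J α β z l q = if C.ok z l ∧ l ∈ J then 1 / (2 * (Fintype.card Y : ℝ)) else 0 := by
  unfold W2
  by_cases h : C.ok z l ∧ l ∈ J
  · rw [if_pos h]
    have h1 : ∀ q : Y × Y, (if (C.ok z l ∧ l ∈ J) ∧ q = (α l, β l) then
        1 / (2 * (Fintype.card Y : ℝ)) else 0) =
        if q = (α l, β l) then 1 / (2 * (Fintype.card Y : ℝ)) else 0 := by
      intro q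
      simp only [h, true_and]
    rw [Finset.sum_congr rfl (fun q _ => h1 q), Finset.sum_ite_eq']
    simp
  · rw [if_neg h]
    apply Finset.sum_eq_zero
    intro q _
    rw [if_neg (fun h' => h h'.1)]

/-- part of a fat line at a point -/
theorem pair_W1 (he : 0 ≤ e) (hp : 2 ≤ p) {s : ℝ} (hs : ∀ l, (C.tl l : ℝ) ≤ s)
    (hNs : s < Fintype.card Y) (z : U) (l : E) (y : Y) :
    ∑ q, (if q.1 = y ∨ q.2 = y then W1 C J p e z l q else 0) ≤
      if C.on y l ∧ p ≤ C.tl l then 2 / (((Fintype.card Y : ℝ) - s) * p) else 0 := by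
  have hpos : (0 : ℝ) < (Fintype.card Y : ℝ) - s := by linarith
  have hNt : ∀ l, (C.tl l : ℝ) < Fintype.card Y := fun l => (hs l).trans_lt hNs
  have hpr : (2 : ℝ) ≤ p := by exact_mod_cast hp
  have hnn : (0 : ℝ) ≤ if C.on y l ∧ p ≤ C.tl l then 2 / (((Fintype.card Y : ℝ) - s) * p) else 0 := by
    split_ifs
    · positivity
    · exact le_rfl
  by_cases h : C.ok z l ∧ p ≤ C.tl l
  · have h1 : ∀ q : Y × Y, (if q.1 = y ∨ q.2 = y then W1 C J p e z l q else 0) =
        if q ∈ (pts C l).offDiag.filter (fun q => q.1 = y ∨ q.2 = y) then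
        cz C J e z / (((Fintype.card Y : ℝ) - C.tl l) * (pts C l).offDiag.card) else 0 := by
      intro q
      unfold W1
      simp only [h, true_and, Finset.mem_filter]
      by_cases h2 : q.1 = y ∨ q.2 = y
      · by_cases h3 : q ∈ (pts C l).offDiag
        · rw [if_pos h2, if_pos h3, if_pos ⟨h3, h2⟩]
        · rw [if_pos h2, if_neg h3, if_neg (fun h4 => h3 h4.1)]
      · rw [if_neg h2, if_neg (fun h4 => h2 h4.2)]
    rw [Finset.sum_congr rfl (fun q _ => h1 q), ← Finset.sum_filter, Finset.sum_const,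
      nsmul_eq_mul]
    have h2 : univ.filter (fun q : Y × Y => q ∈ (pts C l).offDiag.filter
        (fun q => q.1 = y ∨ q.2 = y)) = (pts C l).offDiag.filter (fun q => q.1 = y ∨ q.2 = y) := by
      ext q
      simp
    rw [h2]
    by_cases hy : C.on y l
    · rw [if_pos ⟨hy, h.2⟩]
      have h3 : ((((pts C l).offDiag.filter (fun q => q.1 = y ∨ q.2 = y)).card : ℕ) : ℝ) ≤
          2 * ((C.tl l : ℝ) - 1) := by
        have h4 := pairs_through C l y
        have h5 := two_le_tl C l
        have h6 : ((2 * (C.tl l - 1) : ℕ) : ℝ) = 2 * ((C.tl l : ℝ) - 1) := by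
          rw [Nat.cast_mul, Nat.cast_sub (by omega)]
          norm_num
        rw [← h6]
        exact_mod_cast h4
      have ht2 : (2 : ℝ) ≤ C.tl l := by exact_mod_cast two_le_tl C l
      have htp : (p : ℝ) ≤ C.tl l := by exact_mod_cast h.2
      have ht1 : (0 : ℝ) < (C.tl l : ℝ) - 1 := by linarith
      have hNt' : (0 : ℝ) < (Fintype.card Y : ℝ) - C.tl l := by linarith [hNt l]
      rw [card_off]
      have hc := cz_le (C := C) (J := J) he z
      have hc0 := cz_nonneg (C := C) (J := J) he z
      calc ((((pts C l).offDiag.filter (fun q => q.1 = y ∨ q.2 = y)).card : ℕ) : ℝ) *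
            (cz C J e z / (((Fintype.card Y : ℝ) - C.tl l) * ((C.tl l : ℝ) * ((C.tl l : ℝ) - 1))))
          ≤ (2 * ((C.tl l : ℝ) - 1)) *
            (1 / (((Fintype.card Y : ℝ) - C.tl l) * ((C.tl l : ℝ) * ((C.tl l : ℝ) - 1)))) := by
            apply mul_le_mul h3 _ (by positivity) (by positivity)
            apply div_le_div_of_nonneg_right hc (by positivity)
        _ = 2 / (((Fintype.card Y : ℝ) - C.tl l) * C.tl l) := by
            field_simp
        _ ≤ 2 / (((Fintype.card Y : ℝ) - s) * p) := by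
            apply div_le_div_of_nonneg_left (by norm_num) (by positivity)
            apply mul_le_mul _ htp (by positivity) (by linarith)
            linarith [hs l]
    · rw [if_neg (fun h' => hy h'.1)]
      have h3 : (pts C l).offDiag.filter (fun q => q.1 = y ∨ q.2 = y) = ∅ := by
        rw [Finset.filter_eq_empty_iff]
        rintro ⟨x, x'⟩ hq h5
        rw [Finset.mem_offDiag, mem_pts, mem_pts] at hq
        rcases h5 with h5 | h5
        · exact hy (h5 ▸ hq.1)
        · exact hy (h5 ▸ hq.2.1)
      rw [h3, Finset.card_empty]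
      simp
  · refine le_trans (le_of_eq ?_) hnn
    apply Finset.sum_eq_zero
    intro q _
    have h0 : W1 C J p e z l q = 0 := by
      unfold W1
      exact if_neg (fun h' => h h'.1)
    rw [h0, ite_self]

theorem pair_W2 (z : U) (l : E) (y : Y) :
    ∑ q, (if q.1 = y ∨ q.2 = y then W2 C J α β z l q else 0) ≤
      if l ∈ J ∧ (α l = y ∨ β l = y) then 1 / (2 * (Fintype.card Y : ℝ)) else 0 := by
  by_cases h : l ∈ J ∧ (α l = y ∨ β l = y)
  · rw [if_pos h]
    have h1 : ∑ q, (if q.1 = y ∨ q.2 = y then W2 C J α β z l q else 0) ≤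
        ∑ q, W2 C J α β z l q := by
      apply Finset.sum_le_sum
      intro q _
      split_ifs
      · exact le_rfl
      · exact W2_nonneg z l q
    refine h1.trans ?_
    rw [sum_W2]
    split_ifs
    · exact le_rfl
    · positivity
  · rw [if_neg h]
    apply le_of_eq
    apply Finset.sum_eq_zero
    intro q _
    by_cases h2 : q.1 = y ∨ q.2 = y
    · rw [if_pos h2]
      unfold W2
      rw [if_neg]
      rintro ⟨⟨_, h3⟩, h4⟩
      apply h
      rw [h4] at h2
      exact ⟨h3, h2⟩
    · rw [if_neg h2]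

end

end Pool.Agent.Helper50.RF
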