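import Pool.Agent.Helper50.RF.Loads

/-!
# Case (a) of Theorem D: the assembly
-/

set_option autoImplicit false
set_option linter.unusedSectionVars false

namespace Pool.Agent.Helper50.RF

open Finset Classical H20SW

theorem num_half {a N s : ℝ} (ha : 3000 ≤ a) (hN : a ^ 40 ≤ N) (hs : s ≤ a ^ 34) :
    N / 2 ≤ N - s ∧ 0 < N ∧ 0 < N - s := by
  have h1 : (2 : ℝ) ≤ a ^ 6 := by
    have : (1 : ℝ) ≤ a ^ 5 := one_le_pow₀ (by linarith)
    nlinarith
  have h2 : (0 : ℝ) < a ^ 34 := by positivity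
  have h3 : 2 * a ^ 34 ≤ a ^ 40 := by
    have : a ^ 40 = a ^ 6 * a ^ 34 := by ring
    rw [this]
    exact mul_le_mul_of_nonneg_right h1 h2.le
  refine ⟨by linarith, by linarith, by linarith⟩

theorem num_line {a N s p F d : ℝ} (ha : 3000 ≤ a) (hN : a ^ 40 ≤ N) (hs : s ≤ a ^ 34)
    (hs0 : 0 ≤ s) (hp : p = a ^ 19) (hF : F * (p - 1) ≤ N) (hF0 : 0 ≤ F) (hd : d ≤ a)
    (hd0 : 0 ≤ d) : s * (F * (2 / ((N - s) * p)) + d * (1 / (2 * N))) ≤ 9 / a ^ 4 := by
  obtain ⟨h1, h2, h3⟩ := num_half ha hN hs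
  have ha0 : 0 < a := by linarith
  have hp2 : 2 ≤ p := by
    rw [hp]
    have : (1 : ℝ) ≤ a ^ 18 := one_le_pow₀ (by linarith)
    nlinarith
  have hp0 : 0 < p := by linarith
  have hF2 : F ≤ 2 * N / p := by
    rw [le_div_iff₀ hp0]
    nlinarith
  have e1 : F * (2 / ((N - s) * p)) ≤ 8 / p ^ 2 := by
    calc F * (2 / ((N - s) * p)) ≤ (2 * N / p) * (2 / ((N / 2) * p)) := by
          apply mul_le_mul hF2 _ (by positivity) (by positivity)
          apply div_le_div_of_nonneg_left (by norm_num) (by positivity)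
          exact mul_le_mul_of_nonneg_right h1 hp0.le
      _ = 8 / p ^ 2 := by
          field_simp
          ring
  have e2 : d * (1 / (2 * N)) ≤ a * (1 / (2 * a ^ 40)) := by
    apply mul_le_mul hd _ (by positivity) (by positivity)
    apply div_le_div_of_nonneg_left (by norm_num) (by positivity)
    linarith
  have e3 : F * (2 / ((N - s) * p)) + d * (1 / (2 * N)) ≤ 9 / a ^ 38 := by
    have e4 : 8 / p ^ 2 = 8 / a ^ 38 := by
      rw [hp, ← pow_mul]
    have e5 : a * (1 / (2 * a ^ 40)) ≤ 1 / a ^ 38 := by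
      rw [mul_one_div, div_le_div_iff₀ (by positivity) (by positivity)]
      have : (2 : ℝ) * a ^ 40 = 2 * a * (a * a ^ 38) := by ring
      rw [this, one_mul]
      have h6 : (0 : ℝ) < a * a ^ 38 := by positivity
      nlinarith
    have e6 : (9 : ℝ) / a ^ 38 = 8 / a ^ 38 + 1 / a ^ 38 := by ring
    rw [e6]
    linarith
  have e7 : (0 : ℝ) ≤ F * (2 / ((N - s) * p)) + d * (1 / (2 * N)) := by positivity
  calc s * (F * (2 / ((N - s) * p)) + d * (1 / (2 * N))) ≤ a ^ 34 * (9 / a ^ 38) :=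
        mul_le_mul hs e3 e7 (by positivity)
    _ = 9 / a ^ 4 := by
        field_simp

theorem num_plane {a N t : ℝ} (ha : 3000 ≤ a) (hN : a ^ 40 ≤ N) (ht : t ≤ a ^ 34) :
    1 / (1 + 1 / a ^ 3) + 2 / (N - t) ≤ 1 - 1 / (2 * a ^ 3) + 1 / a ^ 4 := by
  obtain ⟨h1, h2, h3⟩ := num_half ha hN ht
  have ha0 : 0 < a := by linarith
  have e1 : 1 / (1 + 1 / a ^ 3) ≤ 1 - 1 / (2 * a ^ 3) := by
    have h4 : (1 : ℝ) ≤ a ^ 3 := one_le_pow₀ (by linarith)
    set x : ℝ := 1 / a ^ 3 with hx
    have hx0 : 0 < x := by positivity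
    have hx1 : x ≤ 1 := by
      rw [hx, div_le_one (by positivity)]
      exact h4
    have e2 : 1 / (2 * a ^ 3) = x / 2 := by
      rw [hx]
      field_simp
    rw [e2, div_le_iff₀ (by positivity)]
    nlinarith
  have e2 : 2 / (N - t) ≤ 1 / a ^ 4 := by
    have h5 : (4 : ℝ) ≤ a ^ 36 := by
      have : (1 : ℝ) ≤ a ^ 35 := one_le_pow₀ (by linarith)
      nlinarith
    have h6 : 4 * a ^ 4 ≤ a ^ 40 := by
      have : a ^ 40 = a ^ 36 * a ^ 4 := by ring
      rw [this]
      exact mul_le_mul_of_nonneg_right h5 (by positivity)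
    rw [div_le_div_iff₀ h3 (by positivity)]
    linarith
  linarith

theorem num_tot {a : ℝ} (ha : 3000 ≤ a) :
    1 - 1 / (2 * a ^ 3) + 1 / a ^ 4 + (9 / a ^ 4 + 9 / a ^ 4) ≤ 1 := by
  have ha0 : 0 < a := by linarith
  have h1 : 1 / a ^ 4 + (9 / a ^ 4 + 9 / a ^ 4) = 19 / a ^ 4 := by ring
  have h2 : 19 / a ^ 4 ≤ 1 / (2 * a ^ 3) := by
    rw [div_le_div_iff₀ (by positivity) (by positivity)]
    have : a ^ 4 = a * a ^ 3 := by ring
    rw [this]
    have h3 : (0 : ℝ) < a ^ 3 := by positivity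
    nlinarith
  linarith

variable {Y U E G P R : Type} [Fintype Y] [Fintype U] [Fintype E]

/-- the weights -/
noncomputable def WW (C : Cone Y U E G P R) (J : Finset E) (p : ℕ) (e : ℝ) (α β : E → Y) (z : U)
    (l : E) (q : Y × Y) : ℝ := W1 C J p e z l q + W2 C J α β z l q

section

variable {C : Cone Y U E G P R} {J : Finset E} {p : ℕ} {e : ℝ} {α β : E → Y}

/-- the load of a plane -/
theorem plane_load {a : ℝ} (ha : 3000 ≤ a) (hN : a ^ 40 ≤ Fintype.card Y)
    (ht : ∀ l, (C.tl l : ℝ) ≤ a ^ 34) (he : e = 1 / a ^ 3)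
    (hthin : ∀ l ∈ J, C.tl l < p)
    (hbad : ∀ z l, C.ok z l →
      (univ.filter (fun w => C.pl w l = C.pl z l ∧ C.Bad J w)).card ≤ 2)
    (z : U) (l : E) (hz : C.ok z l) :
    L3 C (WW C J p e α β) (rp C z l) ≤ 1 - 1 / (2 * a ^ 3) + 1 / a ^ 4 := by
  have ha0 : 0 < a := by linarith
  have he0 : 0 ≤ e := by
    rw [he]
    positivity
  have hNt : ∀ l, (C.tl l : ℝ) < Fintype.card Y := fun l => by
    have := (num_half ha hN (ht l)).2.2
    linarith
  rw [L3_pl]
  set A := univ.filter (fun w => C.pl w l = C.pl z l) with hA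
  have hcard : (A.card : ℝ) ≤ (Fintype.card Y : ℝ) - C.tl l := by
    have h1 := C.card_pl z l hz
    have h2 : (A.card : ℝ) + C.tl l ≤ Fintype.card Y := by
      exact_mod_cast h1
    linarith
  obtain ⟨g1, g2, g3⟩ := num_half ha hN (ht l)
  by_cases hp : p ≤ C.tl l
  · have h1 : ∀ w ∈ A, ∑ q, WW C J p e α β w l q ≤
        1 / (1 + e) * (1 / ((Fintype.card Y : ℝ) - C.tl l)) +
        (if C.Bad J w then 1 / ((Fintype.card Y : ℝ) - C.tl l) else 0) := by
      intro w _
      unfold WW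
      rw [Finset.sum_add_distrib, sum_W1 hNt, sum_W2]
      have hlJ : ¬ (C.ok w l ∧ l ∈ J) := fun h => by
        have := hthin l h.2
        omega
      rw [if_neg hlJ, add_zero]
      have hpos : (0 : ℝ) ≤ 1 / ((Fintype.card Y : ℝ) - C.tl l) := by positivity
      have hpos2 : (0 : ℝ) ≤ 1 / (1 + e) := by positivity
      have hc : cz C J e w / ((Fintype.card Y : ℝ) - C.tl l) ≤
          1 / (1 + e) * (1 / ((Fintype.card Y : ℝ) - C.tl l)) +
          (if C.Bad J w then 1 / ((Fintype.card Y : ℝ) - C.tl l) else 0) := by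
        unfold cz
        by_cases hb : C.Bad J w
        · rw [if_pos hb, if_pos hb]
          have := mul_nonneg hpos2 hpos
          linarith
        · rw [if_neg hb, if_neg hb, add_zero, div_eq_mul_one_div (1 / (1 + e))]
      split_ifs
      · refine hc.trans (le_of_eq ?_)
        simp only [*, if_true]
      · refine hc.trans (le_of_eq ?_)
        simp only [*, if_false]
      · have := mul_nonneg hpos2 hpos
        linarith
      · have := mul_nonneg hpos2 hpos
        linarith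
    refine (Finset.sum_le_sum h1).trans ?_
    rw [Finset.sum_add_distrib, Finset.sum_const, nsmul_eq_mul, ← Finset.sum_filter,
      Finset.sum_const, nsmul_eq_mul]
    have h2 : ((A.filter (fun w => C.Bad J w)).card : ℝ) ≤ 2 := by
      have h3 := hbad z l hz
      have h4 : A.filter (fun w => C.Bad J w) =
          univ.filter (fun w => C.pl w l = C.pl z l ∧ C.Bad J w) := by
        rw [hA, Finset.filter_filter]
      rw [h4]
      exact_mod_cast h3
    have h3 : (A.card : ℝ) * (1 / (1 + e) * (1 / ((Fintype.card Y : ℝ) - C.tl l))) ≤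
        1 / (1 + e) := by
      have h4 : (A.card : ℝ) * (1 / ((Fintype.card Y : ℝ) - C.tl l)) ≤ 1 := by
        rw [mul_one_div, div_le_one g3]
        exact hcard
      have h5 : (0 : ℝ) ≤ 1 / (1 + e) := by positivity
      calc (A.card : ℝ) * (1 / (1 + e) * (1 / ((Fintype.card Y : ℝ) - C.tl l)))
          = 1 / (1 + e) * ((A.card : ℝ) * (1 / ((Fintype.card Y : ℝ) - C.tl l))) := by ring
        _ ≤ 1 / (1 + e) * 1 := mul_le_mul_of_nonneg_left h4 h5
        _ = 1 / (1 + e) := mul_one _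
    have h4 : ((A.filter (fun w => C.Bad J w)).card : ℝ) *
        (1 / ((Fintype.card Y : ℝ) - C.tl l)) ≤ 2 / ((Fintype.card Y : ℝ) - C.tl l) := by
      rw [mul_one_div]
      exact div_le_div_of_nonneg_right h2 g3.le
    have h5 := num_plane ha hN (ht l)
    rw [← he] at h5
    linarith
  · have h1 : ∀ w ∈ A, ∑ q, WW C J p e α β w l q ≤ 1 / (2 * (Fintype.card Y : ℝ)) := by
      intro w _
      unfold WW
      rw [Finset.sum_add_distrib, sum_W1 hNt, sum_W2, if_neg (fun h => hp h.2), zero_add]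
      split_ifs
      · exact le_rfl
      · positivity
    refine (Finset.sum_le_sum h1).trans ?_
    rw [Finset.sum_const, nsmul_eq_mul]
    have h2 : (A.card : ℝ) * (1 / (2 * (Fintype.card Y : ℝ))) ≤ 1 / 2 := by
      rw [mul_one_div, div_le_div_iff₀ (by positivity) (by norm_num)]
      have h3 : (0 : ℝ) ≤ C.tl l := by positivity
      linarith
    have h3 : 1 / (2 * a ^ 3) ≤ 1 / 2 := by
      apply div_le_div_of_nonneg_left (by norm_num) (by norm_num)
      have : (1 : ℝ) ≤ a ^ 3 := one_le_pow₀ (by linarith)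
      linarith
    have h4 : (0 : ℝ) ≤ 1 / a ^ 4 := by positivity
    linarith

/-- the load of a line -/
theorem line_load {a : ℝ} {b : ℕ} (ha : 3000 ≤ a) (hN : a ^ 40 ≤ Fintype.card Y)
    (hs : (C.s : ℝ) ≤ a ^ 34) (he0 : 0 ≤ e) (hp : (p : ℝ) = a ^ 19) (hab : (b : ℝ) = a)
    (hdeg : ∀ y, Cone.dg J α β y ≤ b) (z : U) (y : Y) :
    L3 C (WW C J p e α β) (rl C z y) ≤ 9 / a ^ 4 := by
  have ha0 : 0 < a := by linarith
  have ht : ∀ l, (C.tl l : ℝ) ≤ C.s := fun l => by
    exact_mod_cast C.short l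
  obtain ⟨g1, g2, g3⟩ := num_half ha hN hs
  have hNs : (C.s : ℝ) < Fintype.card Y := by linarith
  have hNt : ∀ l, (C.tl l : ℝ) < Fintype.card Y := fun l => (ht l).trans_lt hNs
  have hp2r : (2 : ℝ) ≤ p := by
    rw [hp]
    have : (1 : ℝ) ≤ a ^ 18 := one_le_pow₀ (by linarith)
    nlinarith
  have hp2 : 2 ≤ p := by exact_mod_cast hp2r
  have hnn : ∀ w m q, 0 ≤ WW C J p e α β w m q := fun w m q =>
    add_nonneg (W1_nonneg he0 hNt w m q) (W2_nonneg w m q)
  refine (L3_ln C _ hnn z y).trans ?_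
  set F : ℝ := ((univ.filter (fun l => C.on y l ∧ p ≤ C.tl l)).card : ℝ) with hF
  set d : ℝ := (Cone.dg J α β y : ℝ) with hd
  have hFb : F * ((p : ℝ) - 1) ≤ Fintype.card Y := by
    have h1 := fat_through C p y
    have h2 : (((univ.filter (fun l => C.on y l ∧ p ≤ C.tl l)).card * (p - 1) : ℕ) : ℝ) ≤
        (Fintype.card Y : ℝ) := by exact_mod_cast h1
    rw [Nat.cast_mul, Nat.cast_sub (by omega), Nat.cast_one] at h2
    exact h2
  have hdb : d ≤ a := by
    rw [hd, ← hab]
    exact_mod_cast hdeg y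
  have hin : ∀ w : U, ∑ m, ∑ q, (if q.1 = y ∨ q.2 = y then WW C J p e α β w m q else 0) ≤
      F * (2 / (((Fintype.card Y : ℝ) - C.s) * p)) + d * (1 / (2 * (Fintype.card Y : ℝ))) := by
    intro w
    have h1 : ∀ m : E, ∑ q : Y × Y, (if q.1 = y ∨ q.2 = y then WW C J p e α β w m q else 0) ≤
        (if C.on y m ∧ p ≤ C.tl m then 2 / (((Fintype.card Y : ℝ) - C.s) * p) else 0) +
        (if m ∈ J ∧ (α m = y ∨ β m = y) then 1 / (2 * (Fintype.card Y : ℝ)) else 0) := by
      intro m
      have h2 : ∀ q : Y × Y, (if q.1 = y ∨ q.2 = y then WW C J p e α β w m q else 0) =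
          (if q.1 = y ∨ q.2 = y then W1 C J p e w m q else 0) +
          (if q.1 = y ∨ q.2 = y then W2 C J α β w m q else 0) := by
        intro q
        unfold WW
        split_ifs
        · rfl
        · simp
      rw [Finset.sum_congr rfl (fun q _ => h2 q), Finset.sum_add_distrib]
      exact add_le_add (pair_W1 he0 hp2 ht hNs w m y) (pair_W2 w m y)
    refine (Finset.sum_le_sum (fun m _ => h1 m)).trans ?_
    rw [Finset.sum_add_distrib, ← Finset.sum_filter, ← Finset.sum_filter, Finset.sum_const,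
      Finset.sum_const, nsmul_eq_mul, nsmul_eq_mul]
    have h3 : univ.filter (fun m => m ∈ J ∧ (α m = y ∨ β m = y)) =
        J.filter (fun l => α l = y ∨ β l = y) := by
      ext m
      simp
    rw [h3]
    exact le_rfl
  refine (Finset.sum_le_sum (fun w _ => hin w)).trans ?_
  rw [Finset.sum_const, nsmul_eq_mul]
  have h4 : ((univ.filter (fun w => C.ln w y = C.ln z y)).card : ℝ) ≤ C.s := by
    exact_mod_cast C.card_ln z y
  have h5 : (0 : ℝ) ≤ F * (2 / (((Fintype.card Y : ℝ) - C.s) * p)) +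
      d * (1 / (2 * (Fintype.card Y : ℝ))) := by positivity
  refine (mul_le_mul_of_nonneg_right h4 h5).trans ?_
  exact num_line ha hN hs (by positivity) hp hFb (by positivity) hdb (by positivity)

/-- the total weight of a user -/
theorem total_z (hNt : ∀ l, (C.tl l : ℝ) < Fintype.card Y) (z : U) :
    ∑ l, ∑ q, WW C J p e α β z l q =
      cz C J e z * C.Fz p z + (C.Jz J z : ℝ) * (1 / (2 * (Fintype.card Y : ℝ))) := by
  have h1 : ∀ l, ∑ q, WW C J p e α β z l q =
      (if C.ok z l ∧ p ≤ C.tl l then cz C J e z / ((Fintype.card Y : ℝ) - C.tl l) else 0) +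
      (if C.ok z l ∧ l ∈ J then 1 / (2 * (Fintype.card Y : ℝ)) else 0) := by
    intro l
    unfold WW
    rw [Finset.sum_add_distrib, sum_W1 hNt, sum_W2]
  rw [Finset.sum_congr rfl (fun l _ => h1 l), Finset.sum_add_distrib, ← Finset.sum_filter,
    ← Finset.sum_filter, Finset.sum_const, nsmul_eq_mul]
  congr 1
  · unfold Cone.Fz
    rw [Finset.mul_sum]
    apply Finset.sum_congr rfl
    intro l _
    rw [mul_one_div]
  · have h2 : univ.filter (fun l => C.ok z l ∧ l ∈ J) = J.filter (fun l => C.ok z l) := by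
      ext l
      simp [and_comm]
    unfold Cone.Jz
    rw [h2]

end

/-- **Case (a)**: the family of pairs is large. -/
theorem case_a (C : Cone Y U E G P R) {a : ℕ} (ha : 3000 ≤ a) (hN : a ^ 40 ≤ Fintype.card Y)
    (hs : C.s ≤ a ^ 34) {J : Finset E} {α β : E → Y}
    (hJ : C.Fam (a ^ 19) a J α β)
    (hdef : ∀ z, 1 ≤ C.Fz (a ^ 19) z + (C.Jz J z : ℝ) / (4 * Fintype.card Y))
    (hbad : ∀ z l, C.ok z l →
      (univ.filter (fun w => C.pl w l = C.pl z l ∧ C.Bad J w)).card ≤ 2)
    (hlarge : 8 * Fintype.card Y ≤ a ^ 3 * J.card) : C.Good := by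
  have hrr : ∃ x : ℝ, x = (a : ℝ) := ⟨_, rfl⟩
  obtain ⟨x, hx⟩ := hrr
  have hx3 : 3000 ≤ x := by
    rw [hx]
    exact_mod_cast ha
  have hx0 : 0 < x := by linarith
  have hNr : x ^ 40 ≤ Fintype.card Y := by
    rw [hx]
    exact_mod_cast hN
  have hsr : (C.s : ℝ) ≤ x ^ 34 := by
    rw [hx]
    exact_mod_cast hs
  have ht : ∀ l, (C.tl l : ℝ) ≤ x ^ 34 := fun l => by
    have h1 : (C.tl l : ℝ) ≤ C.s := by exact_mod_cast C.short l
    exact h1.trans hsr
  have hpr : ((a ^ 19 : ℕ) : ℝ) = x ^ 19 := by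
    rw [hx]
    push_cast
    ring
  obtain ⟨g1, g2, g3⟩ := num_half hx3 hNr hsr
  have hNt : ∀ l, (C.tl l : ℝ) < Fintype.card Y := fun l => by
    have := (num_half hx3 hNr (ht l)).2.2
    linarith
  obtain ⟨e, he⟩ : ∃ e, e = 1 / x ^ 3 := ⟨_, rfl⟩
  have he0 : 0 ≤ e := by
    rw [he]
    positivity
  have hnn : ∀ w m q, 0 ≤ WW C J (a ^ 19) e α β w m q := fun w m q =>
    add_nonneg (W1_nonneg he0 hNt w m q) (W2_nonneg w m q)
  have hpos : ∀ w m q, 0 < WW C J (a ^ 19) e α β w m q →
      C.ok w m ∧ q ∈ (pts C m).offDiag := by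
    intro w m q h
    unfold WW at h
    by_contra hcon
    have h1 : W1 C J (a ^ 19) e w m q = 0 := by
      unfold W1
      apply if_neg
      rintro ⟨⟨h2, _⟩, h3⟩
      exact hcon ⟨h2, h3⟩
    have h2 : W2 C J α β w m q = 0 := by
      unfold W2
      apply if_neg
      rintro ⟨⟨h3, h4⟩, h5⟩
      apply hcon
      refine ⟨h3, ?_⟩
      rw [h5, Finset.mem_offDiag, mem_pts, mem_pts]
      exact ⟨hJ.ona m h4, hJ.onb m h4, hJ.ne m h4⟩
    rw [h1, h2] at h
    simp at h
  have hld := rainbow3 (V := U × E × (Y × Y)) (X := U) (Q := PlR C ⊕ LnR C) (fun v => v.1)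
    (fun v => rp C v.1 v.2.1) (fun v => rl C v.1 v.2.2.1) (fun v => rl C v.1 v.2.2.2)
    (fun v => WW C J (a ^ 19) e α β v.1 v.2.1 v.2.2) (fun v => hnn _ _ _)
    (by
      intro v hv
      obtain ⟨h1, h2⟩ := hpos _ _ _ hv
      have h3 := plane_load (α := α) (β := β) hx3 hNr ht he hJ.thin hbad v.1 v.2.1 h1
      have h4 := line_load (C := C) (J := J) (e := e) (α := α) (β := β) hx3 hNr hsr he0 hpr
        hx.symm hJ.deg v.1 v.2.2.1
      have h5 := line_load (C := C) (J := J) (e := e) (α := α) (β := β) hx3 hNr hsr he0 hpr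
        hx.symm hJ.deg v.1 v.2.2.2
      have h6 := num_tot hx3
      unfold L3 at h3 h4 h5
      linarith)
    (by
      intro z
      have h1 : ∑ v ∈ univ.filter (fun v : U × E × (Y × Y) => v.1 = z),
          WW C J (a ^ 19) e α β v.1 v.2.1 v.2.2 = ∑ l, ∑ q, WW C J (a ^ 19) e α β z l q := by
        rw [Finset.sum_filter, Fintype.sum_prod_type, Finset.sum_eq_single z]
        · rw [Fintype.sum_prod_type]
          simp
        · intro w _ hw
          apply Finset.sum_eq_zero
          intro q _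
          exact if_neg hw
        · intro h
          exact absurd (Finset.mem_univ z) h
      rw [h1, total_z hNt]
      have h2 := hdef z
      set F := C.Fz (a ^ 19) z with hF
      set Jr : ℝ := (C.Jz J z : ℝ) with hJr
      obtain ⟨N, hNN⟩ : ∃ N : ℝ, N = Fintype.card Y := ⟨_, rfl⟩
      rw [← hNN] at h2 g2 ⊢
      have hJ0 : 0 ≤ Jr := by
        rw [hJr]
        positivity
      have hF0 : 0 ≤ F := by
        rw [hF]
        unfold Cone.Fz
        apply Finset.sum_nonneg
        intro l _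
        have := hNt l
        apply div_nonneg (by norm_num)
        linarith
      have e1 : Jr * (1 / (2 * N)) = 2 * (Jr / (4 * N)) := by
        field_simp
        ring
      rw [e1]
      have e2 : 0 ≤ Jr / (4 * N) := by positivity
      unfold cz
      by_cases hb : C.Bad J z
      · rw [if_pos hb]
        linarith
      · rw [if_neg hb]
        have hJ6 : 6 ≤ J.card := by
          have h3 : 8 * a ^ 40 ≤ a ^ 3 * J.card := by omega
          by_contra hcon
          have h4 : J.card ≤ 5 := by omega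
          have h5 : a ^ 3 * J.card ≤ a ^ 3 * 5 := Nat.mul_le_mul_left _ h4
          have h6 : a ^ 3 ≤ a ^ 40 := Nat.pow_le_pow_right (by omega) (by norm_num)
          have h7 : 0 < a ^ 40 := by positivity
          omega
        have h3 : J.card ≤ 2 * C.Jz J z := by
          by_contra hcon
          exact hb ⟨hJ6, by omega⟩
        have h4 : 8 * N ≤ x ^ 3 * (2 * Jr) := by
          have h5 : 8 * Fintype.card Y ≤ a ^ 3 * (2 * C.Jz J z) :=
            hlarge.trans (Nat.mul_le_mul_left _ h3)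
          rw [hNN, hx, hJr]
          exact_mod_cast h5
        have h5 : e ≤ Jr / (4 * N) := by
          rw [he, div_le_div_iff₀ (by positivity) (by positivity)]
          linarith
        set j := Jr / (4 * N) with hj
        have h6 : 1 / (1 + e) * F ≥ 1 / (1 + e) * (1 - j) := by
          apply mul_le_mul_of_nonneg_left _ (by positivity)
          linarith
        have h7 : 1 / (1 + e) * (1 - j) + 2 * j ≥ 1 := by
          have h8 : 0 < 1 + e := by linarith
          have h9 : 1 / (1 + e) * (1 - j) + 2 * j = (1 - j + 2 * j * (1 + e)) / (1 + e) := by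
            field_simp
          rw [h9, ge_iff_le, le_div_iff₀ h8]
          nlinarith
        linarith)
  obtain ⟨f, hf1, hf2, hf3⟩ := hld
  refine ⟨fun z => (f z).2.1, fun z => (f z).2.2.1, fun z => (f z).2.2.2, ?_, ?_⟩
  · intro z
    obtain ⟨h1, h2⟩ := hpos _ _ _ (hf2 z)
    rw [hf1 z] at h1
    rw [Finset.mem_offDiag, mem_pts, mem_pts] at h2
    exact ⟨h1, h2.1, h2.2.1, h2.2.2⟩
  · intro z w hzw
    have h := hf3 z w hzw
    have h1 := hf1 z
    have h2 := hf1 w
    refine ⟨fun he => ?_, fun he => ?_, fun he => ?_, fun he => ?_⟩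
    · apply h (rp C z (f z).2.1)
      refine ⟨Or.inl ?_, Or.inl ?_⟩
      · simp only [h1]
      · simp only [h2]
        exact (rp_eq.mpr he).symm
    · apply h (rl C z (f z).2.2.1)
      refine ⟨Or.inr (Or.inl ?_), Or.inr (Or.inl ?_)⟩
      · simp only [h1]
      · simp only [h2]
        exact (rl_eq.mpr he).symm
    · apply h (rl C z (f z).2.2.2)
      refine ⟨Or.inr (Or.inr ?_), Or.inr (Or.inr ?_)⟩
      · simp only [h1]
      · simp only [h2]
        exact (rl_eq.mpr he).symm
    · apply h (rl C z (f z).2.2.1)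
      refine ⟨Or.inr (Or.inl ?_), Or.inr (Or.inr ?_)⟩
      · simp only [h1]
      · simp only [h2]
        exact (rl_eq.mpr he).symm

end Pool.Agent.Helper50.RF
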