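import Pool.Agent.Helper50.RF.LoadsM
import Pool.Agent.Helper56.RF.Totals
import Pool.Agent.Helper86.SW.Bad
import Pool.Agent.Helper80.RF.DefSum
import Pool.Agent.Helper20.SW.Num

/-!
# Case (b) of Theorem D
-/

set_option autoImplicit false
set_option linter.unusedSectionVars false

namespace Pool.Agent.Helper50.RF

open Finset Classical H20SW

theorem num_fat {a N s p F : ℝ} (ha : 3000 ≤ a) (hN : a ^ 40 ≤ N) (hs : s ≤ a ^ 34)
    (hp : p = a ^ 19) (hF : F * (p - 1) ≤ N) (hF0 : 0 ≤ F) :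
    F * (4 / ((N - s) * p)) ≤ 1 / 16 := by
  obtain ⟨h1, h2, h3⟩ := num_half ha hN hs
  have ha0 : 0 < a := by linarith
  have hp2 : 3000 ≤ p := by
    rw [hp]
    have : (1 : ℝ) ≤ a ^ 18 := one_le_pow₀ (by linarith)
    nlinarith
  have hp0 : 0 < p := by linarith
  have hF2 : F ≤ 2 * N / p := by
    rw [le_div_iff₀ hp0]
    nlinarith
  calc F * (4 / ((N - s) * p)) ≤ (2 * N / p) * (4 / ((N / 2) * p)) := by
        apply mul_le_mul hF2 _ (by positivity) (by positivity)
        apply div_le_div_of_nonneg_left (by norm_num) (by positivity)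
        exact mul_le_mul_of_nonneg_right h1 hp0.le
    _ = 16 / p ^ 2 := by
        field_simp
        ring
    _ ≤ 1 / 16 := by
        rw [div_le_div_iff₀ (by positivity) (by norm_num)]
        nlinarith

variable {Y U E G P R : Type} [Fintype Y] [Fintype U] [Fintype E]

/-- the weights of the vertices with two lines -/
noncomputable def WT (C : Cone Y U E G P R) (J : Finset E) (p : ℕ) (Q1 : Finset Y) (α β : E → Y)
    (z : U) (l : E) (q : Y × Y) : ℝ := W2 C J α β z l q + WX C J p Q1 z l q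

section

variable {C : Cone Y U E G P R} {J : Finset E} {p : ℕ} {Q1 : Finset Y} {α β : E → Y}

/-- the load of a plane -/
theorem plane5 {a : ℝ} (ha : 3000 ≤ a) (hN : a ^ 40 ≤ Fintype.card Y)
    (ht : ∀ l, (C.tl l : ℝ) ≤ a ^ 34) (hp4 : 4 ≤ p) (hthin : ∀ l ∈ J, C.tl l < p)
    (z : U) (l : E) (hz : C.ok z l) :
    (C.Usable p Q1 l → LM C (WF C p Q1) (WT C J p Q1 α β) (rp C z l) ≤ 1) ∧
    (¬ C.Usable p Q1 l → LM C (WF C p Q1) (WT C J p Q1 α β) (rp C z l) ≤ 1 / 2) := by
  have hNt : ∀ l, (C.tl l : ℝ) < Fintype.card Y := fun l => by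
    have := (num_half ha hN (ht l)).2.2
    linarith
  obtain ⟨g1, g2, g3⟩ := num_half ha hN (ht l)
  rw [LM_pl]
  set A := univ.filter (fun w => C.pl w l = C.pl z l) with hA
  have hcard : (A.card : ℝ) ≤ (Fintype.card Y : ℝ) - C.tl l := by
    have h1 := C.card_pl z l hz
    have h2 : (A.card : ℝ) + C.tl l ≤ Fintype.card Y := by
      exact_mod_cast h1
    linarith
  have hsT : ∀ w, ∑ q, WT C J p Q1 α β w l q =
      (if C.ok w l ∧ l ∈ J then 1 / (2 * (Fintype.card Y : ℝ)) else 0) +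
      (if C.Bad J w ∧ C.ok w l ∧ p ≤ C.tl l ∧ ¬ C.Usable p Q1 l then
        1 / ((Fintype.card Y : ℝ) - C.tl l) else 0) := by
    intro w
    unfold WT
    rw [Finset.sum_add_distrib, sum_W2, sum_WX hp4 hNt]
  have hpos : (0 : ℝ) ≤ 1 / ((Fintype.card Y : ℝ) - C.tl l) := by positivity
  constructor
  · intro hu
    have h1 : ∀ w ∈ A, WF C p Q1 w l + ∑ q, WT C J p Q1 α β w l q ≤
        1 / ((Fintype.card Y : ℝ) - C.tl l) := by
      intro w _
      rw [hsT w, if_neg, if_neg, add_zero, add_zero]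
      · unfold WF
        split_ifs
        · exact le_rfl
        · exact hpos
      · rintro ⟨_, _, _, h⟩
        exact h hu
      · rintro ⟨_, h⟩
        have := hthin l h
        have := hu.1
        omega
    refine (Finset.sum_le_sum h1).trans ?_
    rw [Finset.sum_const, nsmul_eq_mul, mul_one_div, div_le_one g3]
    exact hcard
  · intro hu
    have hF0 : ∀ w, WF C p Q1 w l = 0 := fun w => by
      unfold WF
      exact if_neg (fun h => hu h.2)
    by_cases hp : p ≤ C.tl l
    · have h1 : ∀ w ∈ A, WF C p Q1 w l + ∑ q, WT C J p Q1 α β w l q ≤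
          if C.Bad J w then 1 / ((Fintype.card Y : ℝ) - C.tl l) else 0 := by
        intro w _
        rw [hF0 w, zero_add, hsT w, if_neg, zero_add]
        · by_cases hb : C.Bad J w
          · rw [if_pos hb]
            split_ifs
            · exact le_rfl
            · exact hpos
          · rw [if_neg hb, if_neg (fun h => hb h.1)]
        · rintro ⟨_, h⟩
          have := hthin l h
          omega
      refine (Finset.sum_le_sum h1).trans ?_
      rw [← Finset.sum_filter, Finset.sum_const, nsmul_eq_mul]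
      have h2 : ((A.filter (fun w => C.Bad J w)).card : ℝ) ≤ 2 := by
        have h3 := C.bad_pl J z l hz
        have h4 : A.filter (fun w => C.Bad J w) =
            univ.filter (fun w => C.pl w l = C.pl z l ∧ C.Bad J w) := by
          rw [hA, Finset.filter_filter]
        rw [h4]
        exact_mod_cast h3
      have h3 : (4 : ℝ) ≤ (Fintype.card Y : ℝ) - C.tl l := by
        have h5 : (8 : ℝ) ≤ a ^ 40 := by
          have : (1 : ℝ) ≤ a ^ 39 := one_le_pow₀ (by linarith)
          nlinarith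
        linarith
      calc ((A.filter (fun w => C.Bad J w)).card : ℝ) * (1 / ((Fintype.card Y : ℝ) - C.tl l))
          ≤ 2 * (1 / 4) := by
            apply mul_le_mul h2 _ hpos (by norm_num)
            exact div_le_div_of_nonneg_left (by norm_num) (by norm_num) h3
        _ = 1 / 2 := by norm_num
    · have h1 : ∀ w ∈ A, WF C p Q1 w l + ∑ q, WT C J p Q1 α β w l q ≤
          1 / (2 * (Fintype.card Y : ℝ)) := by
        intro w _
        have e2 : (if C.Bad J w ∧ C.ok w l ∧ p ≤ C.tl l ∧ ¬ C.Usable p Q1 l then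
            1 / ((Fintype.card Y : ℝ) - C.tl l) else 0) = 0 := if_neg (fun h => hp h.2.2.1)
        rw [hF0 w, zero_add, hsT w, e2, add_zero]
        split_ifs
        · exact le_rfl
        · positivity
      refine (Finset.sum_le_sum h1).trans ?_
      rw [Finset.sum_const, nsmul_eq_mul, mul_one_div,
        div_le_div_iff₀ (by positivity) (by norm_num)]
      have h3 : (0 : ℝ) ≤ C.tl l := by positivity
      linarith

/-- the load of a line -/
theorem line5 {a : ℝ} {b : ℕ} (ha : 3000 ≤ a) (hN : a ^ 40 ≤ Fintype.card Y)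
    (hs : (C.s : ℝ) ≤ a ^ 34) (hp : (p : ℝ) = a ^ 19) (hab : (b : ℝ) = a)
    (hdeg : ∀ y, Cone.dg J α β y ≤ b) (z : U) (y : Y) (l : E) (hy : C.on y l) (hz : C.ok z l) :
    LM C (WF C p Q1) (WT C J p Q1 α β) (rl C z y) ≤ 1 / 4 := by
  have ha0 : 0 < a := by linarith
  have ht : ∀ l, (C.tl l : ℝ) ≤ C.s := fun l => by
    exact_mod_cast C.short l
  obtain ⟨g1, g2, g3⟩ := num_half ha hN hs
  have hNs : (C.s : ℝ) < Fintype.card Y := by linarith
  have hNt : ∀ l, (C.tl l : ℝ) < Fintype.card Y := fun l => (ht l).trans_lt hNs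
  have hp3 : (3000 : ℝ) ≤ p := by
    rw [hp]
    have : (1 : ℝ) ≤ a ^ 18 := one_le_pow₀ (by linarith)
    nlinarith
  have hp4 : 4 ≤ p := by
    have : (4 : ℝ) ≤ p := by linarith
    exact_mod_cast this
  refine (LM_ln C _ _ (fun w m => WF_nonneg hNt w m)
    (fun w m q => add_nonneg (W2_nonneg w m q) (WX_nonneg hNt w m q)) z y).trans ?_
  set F : ℝ := ((univ.filter (fun l => C.on y l ∧ p ≤ C.tl l)).card : ℝ) with hF
  set d : ℝ := (Cone.dg J α β y : ℝ) with hd
  have hFb : F * ((p : ℝ) - 1) ≤ Fintype.card Y := by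
    have h1 := fat_through C p y
    have h2 : (((univ.filter (fun l => C.on y l ∧ p ≤ C.tl l)).card * (p - 1) : ℕ) : ℝ) ≤
        (Fintype.card Y : ℝ) := by exact_mod_cast h1
    rw [Nat.cast_mul, Nat.cast_sub (by omega), Nat.cast_one] at h2
    exact h2
  have hdb : d ≤ a := by
    rw [hd, ← hab]
    exact_mod_cast hdeg y
  have hc4 : (0 : ℝ) ≤ 4 / (((Fintype.card Y : ℝ) - C.s) * p) := by positivity
  have hin : ∀ w : U, ∑ m, ∑ q, (if q.1 = y ∨ q.2 = y then WT C J p Q1 α β w m q else 0) ≤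
      (if C.Bad J w then F * (4 / (((Fintype.card Y : ℝ) - C.s) * p)) else 0) +
        d * (1 / (2 * (Fintype.card Y : ℝ))) := by
    intro w
    have h1 : ∀ m : E, ∑ q : Y × Y, (if q.1 = y ∨ q.2 = y then WT C J p Q1 α β w m q else 0) ≤
        (if C.Bad J w then
          (if C.on y m ∧ p ≤ C.tl m then 4 / (((Fintype.card Y : ℝ) - C.s) * p) else 0) else 0) +
        (if m ∈ J ∧ (α m = y ∨ β m = y) then 1 / (2 * (Fintype.card Y : ℝ)) else 0) := by
      intro m
      have h2 : ∀ q : Y × Y, (if q.1 = y ∨ q.2 = y then WT C J p Q1 α β w m q else 0) =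
          (if q.1 = y ∨ q.2 = y then WX C J p Q1 w m q else 0) +
          (if q.1 = y ∨ q.2 = y then W2 C J α β w m q else 0) := by
        intro q
        unfold WT
        split_ifs
        · ring
        · simp
      rw [Finset.sum_congr rfl (fun q _ => h2 q), Finset.sum_add_distrib]
      refine add_le_add ?_ (pair_W2 w m y)
      by_cases hb : C.Bad J w
      · rw [if_pos hb]
        exact pair_WX hp4 ht hNs w m y
      · rw [if_neg hb]
        apply le_of_eq
        apply Finset.sum_eq_zero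
        intro q _
        have h0 : WX C J p Q1 w m q = 0 := by
          unfold WX
          exact if_neg (fun h' => hb h'.1.1)
        rw [h0, ite_self]
    refine (Finset.sum_le_sum (fun m _ => h1 m)).trans ?_
    rw [Finset.sum_add_distrib]
    apply add_le_add
    · by_cases hb : C.Bad J w
      · simp only [hb, if_true]
        rw [← Finset.sum_filter, Finset.sum_const, nsmul_eq_mul]
      · simp only [hb, if_false, Finset.sum_const_zero]
        exact le_rfl
    · rw [← Finset.sum_filter, Finset.sum_const, nsmul_eq_mul]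
      have h3 : univ.filter (fun m => m ∈ J ∧ (α m = y ∨ β m = y)) =
          J.filter (fun l => α l = y ∨ β l = y) := by
        ext m
        simp
      rw [h3]
      exact le_rfl
  refine (Finset.sum_le_sum (fun w _ => hin w)).trans ?_
  rw [Finset.sum_add_distrib, ← Finset.sum_filter, Finset.sum_const, Finset.sum_const,
    nsmul_eq_mul, nsmul_eq_mul, Finset.filter_filter]
  have h4 : ((univ.filter (fun w => C.ln w y = C.ln z y)).card : ℝ) ≤ C.s := by
    exact_mod_cast C.card_ln z y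
  have h5 : ((univ.filter (fun w => C.ln w y = C.ln z y ∧ C.Bad J w)).card : ℝ) ≤ 2 := by
    exact_mod_cast C.bad_ln J z y l hy hz
  have h6 := num_fat (N := Fintype.card Y) (s := C.s) ha hN hs hp hFb (by positivity)
  have h7 := num_line (N := Fintype.card Y) (s := C.s) (p := p) (F := 0) (d := d) ha hN hs
    (by positivity) hp (by simp) le_rfl hdb (by positivity)
  rw [zero_mul, zero_add] at h7
  have h8 : (9 : ℝ) / a ^ 4 ≤ 1 / 8 := by
    rw [div_le_div_iff₀ (by positivity) (by norm_num)]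
    have : (1 : ℝ) ≤ a ^ 3 := one_le_pow₀ (by linarith)
    nlinarith
  have h9 : (0 : ℝ) ≤ F * (4 / (((Fintype.card Y : ℝ) - C.s) * p)) := by positivity
  have h10 : (0 : ℝ) ≤ d * (1 / (2 * (Fintype.card Y : ℝ))) := by positivity
  have h11 := mul_le_mul h5 h6 h9 (by norm_num)
  have h12 := mul_le_mul_of_nonneg_right h4 h10
  linarith

/-- the total weight of a user -/
theorem total5 (hp4 : 4 ≤ p) (hNt : ∀ l, (C.tl l : ℝ) < Fintype.card Y) (z : U) :
    ∑ l, (WF C p Q1 z l + ∑ q, WT C J p Q1 α β z l q) =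
      C.Gz p Q1 z + (if C.Bad J z then C.Bz p Q1 z else 0) +
        (C.Jz J z : ℝ) * (1 / (2 * (Fintype.card Y : ℝ))) := by
  have hsT : ∀ l, ∑ q, WT C J p Q1 α β z l q =
      (if C.ok z l ∧ l ∈ J then 1 / (2 * (Fintype.card Y : ℝ)) else 0) +
      (if C.Bad J z ∧ C.ok z l ∧ p ≤ C.tl l ∧ ¬ C.Usable p Q1 l then
        1 / ((Fintype.card Y : ℝ) - C.tl l) else 0) := by
    intro l
    unfold WT
    rw [Finset.sum_add_distrib, sum_W2, sum_WX hp4 hNt]
  rw [Finset.sum_congr rfl (fun l _ => by rw [hsT l]), Finset.sum_add_distrib,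
    Finset.sum_add_distrib]
  have e1 : ∑ l, WF C p Q1 z l = C.Gz p Q1 z := by
    unfold WF Cone.Gz
    rw [← Finset.sum_filter]
    apply Finset.sum_congr _ (fun _ _ => rfl)
    ext l
    simp only [Finset.mem_filter, Finset.mem_univ, true_and]
    exact Iff.rfl
  have e2 : ∑ l, (if C.ok z l ∧ l ∈ J then 1 / (2 * (Fintype.card Y : ℝ)) else 0) =
      (C.Jz J z : ℝ) * (1 / (2 * (Fintype.card Y : ℝ))) := by
    rw [← Finset.sum_filter, Finset.sum_const, nsmul_eq_mul]
    have h2 : univ.filter (fun l => C.ok z l ∧ l ∈ J) = J.filter (fun l => C.ok z l) := by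
      ext l
      simp [and_comm]
    unfold Cone.Jz
    rw [h2]
  have e3 : ∑ l, (if C.Bad J z ∧ C.ok z l ∧ p ≤ C.tl l ∧ ¬ C.Usable p Q1 l then
        1 / ((Fintype.card Y : ℝ) - C.tl l) else 0) =
      if C.Bad J z then C.Bz p Q1 z else 0 := by
    by_cases hb : C.Bad J z
    · rw [if_pos hb, ← Finset.sum_filter]
      unfold Cone.Bz
      apply Finset.sum_congr _ (fun _ _ => rfl)
      ext l
      simp only [Finset.mem_filter, Finset.mem_univ, true_and, hb]
      constructor
      · rintro ⟨h1, h2, h3⟩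
        exact ⟨h1, h2, fun h => h3 ⟨h2, h⟩⟩
      · rintro ⟨h1, h2, h3⟩
        exact ⟨h1, h2, fun h => h3 h.2⟩
    · rw [if_neg hb]
      apply Finset.sum_eq_zero
      intro l _
      exact if_neg (fun h => hb h.1)
  rw [e1, e2, e3]
  ring

end

/-- **Case (b)**: the family of pairs is small. -/
theorem case_b (C : Cone Y U E G P R) {a : ℕ} (ha : 3000 ≤ a) (hN : a ^ 40 ≤ Fintype.card Y)
    (hN2 : Fintype.card Y ≤ 2 * a ^ 40) (hs : C.s ≤ a ^ 34) {J : Finset E} {α β : E → Y}
    (hJ : C.Fam (a ^ 19) a J α β) (hsmall : a ^ 3 * J.card < 8 * Fintype.card Y) : C.Good := by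
  obtain ⟨x, hx⟩ : ∃ x : ℝ, x = (a : ℝ) := ⟨_, rfl⟩
  have hx3 : 3000 ≤ x := by
    rw [hx]
    exact_mod_cast ha
  have hx0 : 0 < x := by linarith
  have hNr : x ^ 40 ≤ Fintype.card Y := by
    rw [hx]
    exact_mod_cast hN
  have hsr : (C.s : ℝ) ≤ x ^ 34 := by
    rw [hx]
    exact_mod_cast hs
  have ht : ∀ l, (C.tl l : ℝ) ≤ x ^ 34 := fun l => by
    have h1 : (C.tl l : ℝ) ≤ C.s := by exact_mod_cast C.short l
    exact h1.trans hsr
  have hpr : ((a ^ 19 : ℕ) : ℝ) = x ^ 19 := by
    rw [hx]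
    push_cast
    ring
  have hp4 : 4 ≤ a ^ 19 := by
    have h1 : a ≤ a ^ 19 := Nat.le_self_pow (by norm_num) a
    omega
  obtain ⟨g1, g2, g3⟩ := num_half hx3 hNr hsr
  have hNt : ∀ l, (C.tl l : ℝ) < Fintype.card Y := fun l => by
    have := (num_half hx3 hNr (ht l)).2.2
    linarith
  have hY : Nonempty Y := by
    rw [← Fintype.card_pos_iff]
    exact_mod_cast g2
  obtain ⟨y0⟩ := hY
  obtain ⟨Q1, hQ1⟩ : ∃ Q1 : Finset Y, Q1 = Cone.sup1 J α β := ⟨_, rfl⟩
  have hdef := Pool.Agent.Helper80.RF.def_sum C ha hN hs hJ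
  have hF0 : ∀ w m, 0 ≤ WF C (a ^ 19) Q1 w m := fun w m => WF_nonneg hNt w m
  have hT0 : ∀ w m q, 0 ≤ WT C J (a ^ 19) Q1 α β w m q := fun w m q =>
    add_nonneg (W2_nonneg w m q) (WX_nonneg hNt w m q)
  have hposF : ∀ w m, 0 < WF C (a ^ 19) Q1 w m → C.ok w m ∧ C.Usable (a ^ 19) Q1 m := by
    intro w m h
    unfold WF at h
    by_contra hcon
    rw [if_neg hcon] at h
    exact lt_irrefl _ h
  have hposT : ∀ w m q, 0 < WT C J (a ^ 19) Q1 α β w m q →
      C.ok w m ∧ C.on q.1 m ∧ C.on q.2 m ∧ q.1 ≠ q.2 ∧ q.1 ∈ Q1 ∧ q.2 ∈ Q1 ∧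
        ¬ C.Usable (a ^ 19) Q1 m := by
    intro w m q h
    unfold WT at h
    by_cases h2 : (C.ok w m ∧ m ∈ J) ∧ q = (α m, β m)
    · obtain ⟨⟨h3, h4⟩, h5⟩ := h2
      rw [h5]
      refine ⟨h3, hJ.ona m h4, hJ.onb m h4, hJ.ne m h4, ?_, ?_, ?_⟩
      · rw [hQ1]
        unfold Cone.sup1
        exact Finset.mem_union_left _ (Finset.mem_image_of_mem α h4)
      · rw [hQ1]
        unfold Cone.sup1
        exact Finset.mem_union_right _ (Finset.mem_image_of_mem β h4)
      · intro h6
        have := hJ.thin m h4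
        have := h6.1
        omega
    · have e1 : W2 C J α β w m q = 0 := by
        unfold W2
        exact if_neg h2
      rw [e1, zero_add] at h
      by_cases h3 : (C.Bad J w ∧ C.ok w m ∧ a ^ 19 ≤ C.tl m ∧ ¬ C.Usable (a ^ 19) Q1 m) ∧
          q ∈ (pts1 C Q1 m).offDiag
      · obtain ⟨⟨h4, h5, h6, h7⟩, h8⟩ := h3
        rw [Finset.mem_offDiag] at h8
        unfold pts1 at h8
        rw [Finset.mem_filter, Finset.mem_filter] at h8
        exact ⟨h5, h8.1.2, h8.2.1.2, h8.2.2, h8.1.1, h8.2.1.1, h7⟩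
      · exfalso
        have e2 : WX C J (a ^ 19) Q1 w m q = 0 := by
          unfold WX
          exact if_neg h3
        rw [e2] at h
        exact lt_irrefl _ h
  have hrb := rainbowM (V := VM Y U E) (X := U) (Q := PlR C ⊕ LnR C) (fun v => v.1)
    (fun v => v.2.2 = none) (fun v => rp C v.1 v.2.1) (r2M C) (r3M C)
    (wM (WF C (a ^ 19) Q1) (WT C J (a ^ 19) Q1 α β))
    (by
      rintro ⟨z, l, o⟩
      cases o with
      | none => exact hF0 z l
      | some q => exact hT0 z l q)
    (LM C (WF C (a ^ 19) Q1) (WT C J (a ^ 19) Q1 α β))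
    (by
      intro q
      unfold LM
      apply Finset.sum_congr _ (fun _ _ => rfl)
      ext u
      simp only [Finset.mem_filter, Finset.mem_univ, true_and]
      exact Iff.rfl)
    (by
      rintro ⟨z, l, o⟩ hv ho
      have ho' : o = none := ho
      subst ho'
      obtain ⟨h1, h2⟩ := hposF z l hv
      exact (plane5 (α := α) (β := β) hx3 hNr ht hp4 hJ.thin z l h1).1 h2)
    (by
      rintro ⟨z, l, o⟩ hv ho
      cases o with
      | none => exact absurd rfl ho
      | some q =>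
        obtain ⟨h1, h2, h3, _, _, _, h7⟩ := hposT z l q hv
        have h8 := (plane5 (α := α) (β := β) hx3 hNr ht hp4 hJ.thin z l h1).2 h7
        have h9 := line5 (C := C) (J := J) (Q1 := Q1) (α := α) (β := β) hx3 hNr hsr hpr
          hx.symm hJ.deg z q.1 l h2 h1
        have h10 := line5 (C := C) (J := J) (Q1 := Q1) (α := α) (β := β) hx3 hNr hsr hpr
          hx.symm hJ.deg z q.2 l h3 h1
        change LM C _ _ (rp C z l) + LM C _ _ (rl C z q.1) + LM C _ _ (rl C z q.2) ≤ 1
        linarith)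
    (by
      intro z
      have h1 : ∑ v ∈ univ.filter (fun v : VM Y U E => v.1 = z),
          wM (WF C (a ^ 19) Q1) (WT C J (a ^ 19) Q1 α β) v =
          ∑ l, (WF C (a ^ 19) Q1 z l + ∑ q, WT C J (a ^ 19) Q1 α β z l q) := by
        rw [Finset.sum_filter, Fintype.sum_prod_type, Finset.sum_eq_single z]
        · rw [Fintype.sum_prod_type]
          apply Finset.sum_congr rfl
          intro l _
          rw [Fintype.sum_option]
          simp [wM]
        · intro w _ hw
          apply Finset.sum_eq_zero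
          intro q _
          exact if_neg hw
        · intro h
          exact absurd (Finset.mem_univ z) h
      rw [h1, total5 hp4 hNt]
      have e1 : (C.Jz J z : ℝ) * (1 / (2 * (Fintype.card Y : ℝ))) =
          (C.Jz J z : ℝ) / (2 * Fintype.card Y) := by
        rw [mul_one_div]
      rw [e1]
      by_cases hb : C.Bad J z
      · rw [if_pos hb]
        exact C.total_bad Q1 (hdef z)
      · rw [if_neg hb, add_zero, hQ1]
        exact C.total_good ha hN hN2 hs hsmall hb (hdef z))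
  obtain ⟨f, hf1, hf2, hf3⟩ := hrb
  obtain ⟨hk1, hk2, hk3⟩ := num_k ha hN2 hs
  -- the users with one resource
  have hnone : ∀ z, (f z).2.2 = none → C.ok z (f z).2.1 ∧ C.Usable (a ^ 19) Q1 (f z).2.1 := by
    intro z hz
    have h1 := hf2 z
    have h2 := hf1 z
    unfold wM at h1
    rw [hz] at h1
    have h3 := hposF _ _ h1
    rw [h2] at h3
    exact h3
  have hsome : ∀ z q, (f z).2.2 = some q → C.ok z (f z).2.1 ∧ C.on q.1 (f z).2.1 ∧
      C.on q.2 (f z).2.1 ∧ q.1 ≠ q.2 ∧ q.1 ∈ Q1 ∧ q.2 ∈ Q1 ∧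
      ¬ C.Usable (a ^ 19) Q1 (f z).2.1 := by
    intro z q hz
    have h1 := hf2 z
    have h2 := hf1 z
    unfold wM at h1
    rw [hz] at h1
    have h3 := hposT _ _ _ h1
    rw [h2] at h3
    exact h3
  have hpl : ∀ z w, z ≠ w → C.pl z (f z).2.1 ≠ C.pl w (f w).2.1 := by
    intro z w hzw he
    apply hf3 z w hzw (rp C z (f z).2.1)
    refine ⟨Or.inl ?_, Or.inl ?_⟩
    · rw [hf1 z]
    · rw [hf1 w]
      exact (rp_eq.mpr he).symm
  refine C.good_of_mixed hk1 hk2 hk3 Q1 (univ.filter (fun z => (f z).2.2 = none))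
    (fun z => (f z).2.1) (fun z => (f z).2.2.elim y0 (fun q => q.1))
    (fun z => (f z).2.2.elim y0 (fun q => q.2)) ?_ ?_ ?_ ?_
  · intro z hz
    exact hnone z (Finset.mem_filter.mp hz).2
  · intro z _ w _ hzw
    exact hpl z w hzw
  · intro z hz
    have h1 : ¬ (f z).2.2 = none := fun h => hz (Finset.mem_filter.mpr ⟨Finset.mem_univ _, h⟩)
    obtain ⟨q, hq⟩ := Option.ne_none_iff_exists'.mp h1
    have h2 := hsome z q hq
    simp only [hq, Option.elim]
    exact h2
  · intro z w hz hw hzw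
    have h1 : ¬ (f z).2.2 = none := fun h => hz (Finset.mem_filter.mpr ⟨Finset.mem_univ _, h⟩)
    have h2 : ¬ (f w).2.2 = none := fun h => hw (Finset.mem_filter.mpr ⟨Finset.mem_univ _, h⟩)
    obtain ⟨q, hq⟩ := Option.ne_none_iff_exists'.mp h1
    obtain ⟨q', hq'⟩ := Option.ne_none_iff_exists'.mp h2
    have h3 := hf3 z w hzw
    have h4 : r2M C (f z) = rl C z q.1 := by
      unfold r2M
      rw [hq, hf1 z]
      rfl
    have h5 : r3M C (f z) = rl C z q.2 := by
      unfold r3M
      rw [hq, hf1 z]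
      rfl
    have h4' : r2M C (f w) = rl C w q'.1 := by
      unfold r2M
      rw [hq', hf1 w]
      rfl
    have h5' : r3M C (f w) = rl C w q'.2 := by
      unfold r3M
      rw [hq', hf1 w]
      rfl
    simp only [hq, hq', Option.elim]
    refine ⟨hpl z w hzw, fun he => ?_, fun he => ?_, fun he => ?_⟩
    · apply h3 (rl C z q.1)
      exact ⟨Or.inr ⟨h1, Or.inl h4⟩, Or.inr ⟨h2, Or.inl (h4'.trans (rl_eq.mpr he).symm)⟩⟩
    · apply h3 (rl C z q.2)
      exact ⟨Or.inr ⟨h1, Or.inr h5⟩, Or.inr ⟨h2, Or.inr (h5'.trans (rl_eq.mpr he).symm)⟩⟩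
    · apply h3 (rl C z q.1)
      exact ⟨Or.inr ⟨h1, Or.inl h4⟩, Or.inr ⟨h2, Or.inr (h5'.trans (rl_eq.mpr he).symm)⟩⟩

end Pool.Agent.Helper50.RF
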