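import Pool.Agent.Helper50.RF.D5
import Pool.Agent.Helper88.RF.Dense
import Pool.Agent.Helper68.RF.Inst

/-!
# All but finitely many geometric lattices of rank four: the chain
-/

set_option autoImplicit false
set_option linter.unusedSectionVars false

namespace Pool.Agent.Helper50.RF

open Finset Pool.Agent.Helper28.BPack Pool.Agent.Helper88.RC H20SW

/-- every cone with large numbers is good -/
theorem good_cone {Y U E G P R : Type} [Fintype Y] [Fintype U] [Fintype E]
    (C : Cone Y U E G P R) {a : ℕ} (ha : 3000 ≤ a) (hN : a ^ 40 ≤ Fintype.card Y)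
    (hN2 : Fintype.card Y ≤ 2 * a ^ 40) (hs : C.s ≤ a ^ 34) : C.Good := by
  obtain ⟨J, α, β, hJ⟩ := C.exists_fam (a ^ 19) a
  rcases le_or_gt (8 * Fintype.card Y) (a ^ 3 * J.card) with h | h
  · exact case_a C ha hN hs hJ (Pool.Agent.Helper80.RF.def_sum C ha hN hs hJ)
      (fun z l hl => C.bad_pl J z l hl) h
  · exact case_b C ha hN hN2 hs hJ h

theorem dense_all (L : Type) [Lattice L] [BoundedOrder L] [Finite L] [IsUpperModularLattice L] :
    Dense 3000 L :=
  dense_of_cones
    (fun {_} hA hr {_} hQ hmax {_} hs D =>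
      Pool.Agent.Helper68.RF.crit4_of_cones hA hr hQ hmax hs D)
    (fun _ _ _ _ _ _ C _ h1 h2 h3 h4 => good_cone C h1 h2 h3 h4)

/-- **All geometric lattices of rank four with at least `3 * 3000 ^ 60` atoms.** -/
theorem packing_all {L : Type} [Lattice L] [BoundedOrder L] [Fintype L]
    [IsUpperModularLattice L]
    (hat : ∀ x : L, ∃ s : Finset L, (∀ a ∈ s, IsAtom a) ∧ s.sup id = x)
    (hr : Order.height (⊤ : L) = 4)
    (hn : 3 * 3000 ^ 60 ≤ {a : L | IsAtom a}.ncard) :
    ∃ (t : ℕ) (n : Fin t → ℕ) (φ : ∀ i : Fin t, Set (Fin (n i)) → L),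
      (∀ i, Function.Injective (φ i)) ∧
      (∀ i (a b : Set (Fin (n i))), a ⋖ b → φ i a ⋖ φ i b) ∧
      (∀ i, Order.height (⊤ : L) ≤ Order.height (φ i ⊥) + Order.height (φ i ⊤)) ∧
      (∀ x : L, ∃! p : (Σ i : Fin t, Set (Fin (n i))), φ p.1 p.2 = x) :=
  packing_of_dense (by norm_num) (dense_all L) hat hr hn

end Pool.Agent.Helper50.RF
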