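import Pool.Agent.Helper50.RF.CaseA

/-!
# Loads of planes and lines in a cone
-/

set_option autoImplicit false
set_option linter.unusedSectionVars false

namespace Pool.Agent.Helper50.RF

open Finset Classical H20SW

variable {Y U E G P R : Type} [Fintype Y] [Fintype U] [Fintype E]

/-- the planes of the users -/
abbrev PlR (C : Cone Y U E G P R) : Type := Set.range (fun x : U × E => C.pl x.1 x.2)

/-- the lines of the users -/
abbrev LnR (C : Cone Y U E G P R) : Type := Set.range (fun x : U × Y => C.ln x.1 x.2)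

/-- a plane as a resource -/
def rp (C : Cone Y U E G P R) (z : U) (l : E) : PlR C ⊕ LnR C :=
  Sum.inl ⟨C.pl z l, ⟨(z, l), rfl⟩⟩

/-- a line as a resource -/
def rl (C : Cone Y U E G P R) (z : U) (y : Y) : PlR C ⊕ LnR C :=
  Sum.inr ⟨C.ln z y, ⟨(z, y), rfl⟩⟩

theorem rp_eq {C : Cone Y U E G P R} {z w : U} {l m : E} :
    rp C z l = rp C w m ↔ C.pl z l = C.pl w m := by
  unfold rp
  rw [Sum.inl.injEq, Subtype.mk.injEq]

theorem rl_eq {C : Cone Y U E G P R} {z w : U} {x y : Y} :
    rl C z x = rl C w y ↔ C.ln z x = C.ln w y := by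
  unfold rl
  rw [Sum.inr.injEq, Subtype.mk.injEq]

theorem rp_ne {C : Cone Y U E G P R} {z w : U} {l : E} {y : Y} : rp C z l ≠ rl C w y := by
  unfold rp rl
  exact Sum.inl_ne_inr

/-- the load with the three resources of a vertex -/
noncomputable def L3 (C : Cone Y U E G P R) (W : U → E → Y × Y → ℝ) : PlR C ⊕ LnR C → ℝ :=
  ld (V := U × E × (Y × Y)) (fun v => rp C v.1 v.2.1) (fun v => rl C v.1 v.2.2.1)
    (fun v => rl C v.1 v.2.2.2) (fun v => W v.1 v.2.1 v.2.2)

theorem L3_pl (C : Cone Y U E G P R) (W : U → E → Y × Y → ℝ) (z : U) (l : E) :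
    L3 C W (rp C z l) =
      ∑ w ∈ univ.filter (fun w => C.pl w l = C.pl z l), ∑ q, W w l q := by
  unfold L3 ld
  rw [Finset.sum_filter, Fintype.sum_prod_type, Finset.sum_filter]
  apply Finset.sum_congr rfl
  intro w _
  rw [Fintype.sum_prod_type]
  have e : ∀ (m : E) (q : Y × Y), (rp C w m = rp C z l ∨ rl C w q.1 = rp C z l ∨
      rl C w q.2 = rp C z l) ↔ C.pl w m = C.pl z l := by
    intro m q
    rw [rp_eq]
    constructor
    · rintro (h | h | h)
      · exact h
      · exact absurd h.symm rp_ne
      · exact absurd h.symm rp_ne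
    · exact Or.inl
  have h1 : ∑ m, ∑ q, (if C.pl w m = C.pl z l then W w m q else 0) =
      if C.pl w l = C.pl z l then ∑ q, W w l q else 0 := by
    rw [Finset.sum_eq_single l]
    · by_cases h : C.pl w l = C.pl z l
      · simp only [h, if_true]
      · simp only [h, if_false, Finset.sum_const_zero]
    · intro m _ hm
      apply Finset.sum_eq_zero
      intro q _
      rw [if_neg]
      intro h
      exact hm (C.pl_line w z m l h)
    · intro h
      exact absurd (Finset.mem_univ l) h
  refine Eq.trans ?_ h1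
  apply Finset.sum_congr rfl
  intro m _
  apply Finset.sum_congr rfl
  intro q _
  by_cases h : C.pl w m = C.pl z l
  · rw [if_pos h, if_pos]
    exact (e m q).mpr h
  · rw [if_neg h, if_neg]
    exact fun h' => h ((e m q).mp h')

theorem L3_ln (C : Cone Y U E G P R) (W : U → E → Y × Y → ℝ) (hW : ∀ w m q, 0 ≤ W w m q)
    (z : U) (y : Y) :
    L3 C W (rl C z y) ≤ ∑ w ∈ univ.filter (fun w => C.ln w y = C.ln z y),
      ∑ m, ∑ q, (if q.1 = y ∨ q.2 = y then W w m q else 0) := by
  unfold L3 ld
  rw [Finset.sum_filter, Fintype.sum_prod_type, Finset.sum_filter]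
  apply Finset.sum_le_sum
  intro w _
  rw [Fintype.sum_prod_type]
  by_cases h : C.ln w y = C.ln z y
  · rw [if_pos h]
    apply Finset.sum_le_sum
    intro m _
    apply Finset.sum_le_sum
    intro q _
    by_cases h1 : rp C w m = rl C z y ∨ rl C w q.1 = rl C z y ∨ rl C w q.2 = rl C z y
    · rw [if_pos h1, if_pos]
      rcases h1 with h1 | h1 | h1
      · exact absurd h1 rp_ne
      · exact Or.inl (C.ln_pt w z q.1 y (rl_eq.mp h1))
      · exact Or.inr (C.ln_pt w z q.2 y (rl_eq.mp h1))
    · rw [if_neg h1]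
      split_ifs
      · exact hW w m q
      · exact le_rfl
  · rw [if_neg h]
    apply le_of_eq
    apply Finset.sum_eq_zero
    intro m _
    apply Finset.sum_eq_zero
    intro q _
    rw [if_neg]
    rintro (h1 | h1 | h1)
    · exact absurd h1 rp_ne
    · have h2 := rl_eq.mp h1
      have h3 := C.ln_pt w z q.1 y h2
      simp only at h2
      rw [h3] at h2
      exact h h2
    · have h2 := rl_eq.mp h1
      have h3 := C.ln_pt w z q.2 y h2
      simp only at h2
      rw [h3] at h2
      exact h h2

end Pool.Agent.Helper50.RF
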