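import Pool.Agent.Helper50.RF.Rainbow3

/-!
# Rainbow matchings, hyperedges with one or with three resources
-/

set_option autoImplicit false
set_option linter.unusedSectionVars false

namespace Pool.Agent.Helper50.RF

open Finset

variable {V X Q : Type} [Fintype V]

open Classical in
/-- Mixed rainbow: the hyperedges with `one v` have the resource `r1 v` only, the others have
`r1 v, r2 v, r3 v`. -/
theorem rainbowM [Finite X] [Finite Q] (col : V → X) (one : V → Prop) (r1 r2 r3 : V → Q)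
    (w : V → ℝ) (hw0 : ∀ v, 0 ≤ w v) (ld : Q → ℝ)
    (hld : ∀ q, ld q = ∑ u ∈ univ.filter (fun u => r1 u = q ∨ (¬ one u ∧ (r2 u = q ∨ r3 u = q))),
      w u)
    (hw1 : ∀ v, 0 < w v → one v → ld (r1 v) ≤ 1)
    (hw3 : ∀ v, 0 < w v → ¬ one v → ld (r1 v) + ld (r2 v) + ld (r3 v) ≤ 1)
    (hx : ∀ x, 1 ≤ ∑ v ∈ univ.filter (fun v => col v = x), w v) :
    ∃ f : X → V, (∀ x, col (f x) = x) ∧ (∀ x, 0 < w (f x)) ∧
      ∀ x y, x ≠ y → ∀ q, ¬ ((r1 (f x) = q ∨ (¬ one (f x) ∧ (r2 (f x) = q ∨ r3 (f x) = q))) ∧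
        (r1 (f y) = q ∨ (¬ one (f y) ∧ (r2 (f y) = q ∨ r3 (f y) = q)))) := by
  have hfin : ∀ p : V → Prop, ∑ᶠ u ∈ {u | p u}, w u = ∑ u ∈ univ.filter p, w u := by
    intro p
    rw [finsum_mem_eq_finite_toFinset_sum _ (Set.toFinite _)]
    congr 1
    ext u
    simp
  have hnn : ∀ q, 0 ≤ ld q := by
    intro q
    rw [hld]
    exact Finset.sum_nonneg fun u _ => hw0 u
  have := Fintype.ofFinite Q
  apply Pool.Agent.Helper63.HM.rainbow
    (fun v q => r1 v = q ∨ (¬ one v ∧ (r2 v = q ∨ r3 v = q))) col w hw0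
  · intro v hv
    have h1 : ∀ q, ∑ᶠ u ∈ {u | r1 u = q ∨ (¬ one u ∧ (r2 u = q ∨ r3 u = q))}, w u = ld q := by
      intro q
      rw [hfin, hld]
      apply Finset.sum_congr _ (fun _ _ => rfl)
      ext u
      simp
    rw [finsum_mem_congr rfl (fun q _ => h1 q),
      finsum_mem_eq_finite_toFinset_sum _ (Set.toFinite _)]
    by_cases ho : one v
    · have h2 : (Set.toFinite {q | r1 v = q ∨ (¬ one v ∧ (r2 v = q ∨ r3 v = q))}).toFinset ⊆
          {r1 v} := by
        intro q hq
        rw [Set.Finite.mem_toFinset] at hq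
        simp only [Finset.mem_singleton]
        rcases hq with h | h
        · exact h.symm
        · exact absurd ho h.1
      refine (Finset.sum_le_sum_of_subset_of_nonneg h2 (fun q _ _ => hnn q)).trans ?_
      rw [Finset.sum_singleton]
      exact hw1 v hv ho
    · have h2 : (Set.toFinite {q | r1 v = q ∨ (¬ one v ∧ (r2 v = q ∨ r3 v = q))}).toFinset ⊆
          {r1 v} ∪ ({r2 v} ∪ {r3 v}) := by
        intro q hq
        rw [Set.Finite.mem_toFinset] at hq
        simp only [Finset.mem_union, Finset.mem_singleton]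
        rcases hq with h | ⟨_, h | h⟩
        · exact Or.inl h.symm
        · exact Or.inr (Or.inl h.symm)
        · exact Or.inr (Or.inr h.symm)
      refine (Finset.sum_le_sum_of_subset_of_nonneg h2 (fun q _ _ => hnn q)).trans ?_
      refine le_trans ?_ (hw3 v hv ho)
      have hu : ∀ A B : Finset Q, ∑ q ∈ A ∪ B, ld q ≤ ∑ q ∈ A, ld q + ∑ q ∈ B, ld q := by
        intro A B
        have h3 := Finset.sum_union_inter (s₁ := A) (s₂ := B) (f := ld)
        have h4 : 0 ≤ ∑ q ∈ A ∩ B, ld q := Finset.sum_nonneg fun q _ => hnn q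
        linarith
      have h3 := hu {r1 v} ({r2 v} ∪ {r3 v})
      have h4 := hu {r2 v} {r3 v}
      rw [Finset.sum_singleton] at h3 h4
      rw [Finset.sum_singleton] at h4
      linarith
  · intro x
    rw [hfin]
    convert hx x using 2

end Pool.Agent.Helper50.RF
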