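import Pool.Agent.Helper50.RF.D4
import Pool.Agent.Helper50.RF.RainbowM
import Pool.Agent.Helper20.SW.Mixed
import Pool.Agent.Helper56.RF.Loads

/-!
# Case (b): loads of the mixed vertices
-/

set_option autoImplicit false
set_option linter.unusedSectionVars false

namespace Pool.Agent.Helper50.RF

open Finset Classical H20SW

variable {Y U E G P R : Type} [Fintype Y] [Fintype U] [Fintype E]

/-- vertices -/
abbrev VM (Y U E : Type) : Type := U × E × Option (Y × Y)

/-- weights -/
noncomputable def wM (WF : U → E → ℝ) (WT : U → E → Y × Y → ℝ) (v : VM Y U E) : ℝ :=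
  v.2.2.elim (WF v.1 v.2.1) (fun q => WT v.1 v.2.1 q)

/-- first line -/
noncomputable def r2M (C : Cone Y U E G P R) (v : VM Y U E) : PlR C ⊕ LnR C :=
  v.2.2.elim (rp C v.1 v.2.1) (fun q => rl C v.1 q.1)

/-- second line -/
noncomputable def r3M (C : Cone Y U E G P R) (v : VM Y U E) : PlR C ⊕ LnR C :=
  v.2.2.elim (rp C v.1 v.2.1) (fun q => rl C v.1 q.2)

/-- the resources -/
def useM (C : Cone Y U E G P R) (v : VM Y U E) (q : PlR C ⊕ LnR C) : Prop :=
  rp C v.1 v.2.1 = q ∨ (¬ v.2.2 = none ∧ (r2M C v = q ∨ r3M C v = q))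

/-- the load -/
noncomputable def LM (C : Cone Y U E G P R) (WF : U → E → ℝ) (WT : U → E → Y × Y → ℝ)
    (q : PlR C ⊕ LnR C) : ℝ := ∑ u ∈ univ.filter (fun u => useM C u q), wM WF WT u

theorem use_pl (C : Cone Y U E G P R) (z : U) (l : E) (u : VM Y U E) :
    useM C u (rp C z l) ↔ C.pl u.1 u.2.1 = C.pl z l := by
  obtain ⟨w, m, o⟩ := u
  unfold useM r2M r3M
  cases o with
  | none =>
    simp only [not_true_eq_false, false_and, or_false]
    exact rp_eq
  | some q =>
    simp only [Option.elim]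
    constructor
    · rintro (h | ⟨_, h | h⟩)
      · exact rp_eq.mp h
      · exact absurd h.symm rp_ne
      · exact absurd h.symm rp_ne
    · intro h
      exact Or.inl (rp_eq.mpr h)

theorem LM_pl (C : Cone Y U E G P R) (WF : U → E → ℝ) (WT : U → E → Y × Y → ℝ) (z : U) (l : E) :
    LM C WF WT (rp C z l) =
      ∑ w ∈ univ.filter (fun w => C.pl w l = C.pl z l), (WF w l + ∑ q, WT w l q) := by
  unfold LM
  rw [Finset.sum_filter]
  have h1 : ∀ u : VM Y U E, (if useM C u (rp C z l) then wM WF WT u else 0) =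
      if C.pl u.1 u.2.1 = C.pl z l then wM WF WT u else 0 := by
    intro u
    by_cases h : C.pl u.1 u.2.1 = C.pl z l
    · rw [if_pos h, if_pos ((use_pl C z l u).mpr h)]
    · rw [if_neg h, if_neg (fun h' => h ((use_pl C z l u).mp h'))]
  rw [Finset.sum_congr rfl (fun u _ => h1 u), Fintype.sum_prod_type, Finset.sum_filter]
  apply Finset.sum_congr rfl
  intro w _
  rw [Fintype.sum_prod_type, Finset.sum_eq_single l]
  · rw [Fintype.sum_option]
    unfold wM
    by_cases h : C.pl w l = C.pl z l
    · simp only [h, if_true, Option.elim]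
    · simp only [h, if_false, Finset.sum_const_zero, add_zero]
  · intro m _ hm
    apply Finset.sum_eq_zero
    intro q _
    rw [if_neg]
    intro h
    exact hm (C.pl_line w z m l h)
  · intro h
    exact absurd (Finset.mem_univ l) h

theorem use_ln (C : Cone Y U E G P R) (z : U) (y : Y) (w : U) (m : E) (o : Option (Y × Y))
    (h : useM C (w, m, o) (rl C z y)) :
    ∃ q, o = some q ∧ C.ln w y = C.ln z y ∧ (q.1 = y ∨ q.2 = y) := by
  unfold useM r2M r3M at h
  rcases h with h | ⟨h0, h⟩
  · exact absurd h rp_ne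
  · cases o with
    | none => exact absurd rfl h0
    | some q =>
      simp only [Option.elim] at h
      refine ⟨q, rfl, ?_⟩
      rcases h with h | h
      · have h2 := rl_eq.mp h
        have h3 := C.ln_pt w z q.1 y h2
        rw [h3] at h2
        exact ⟨h2, Or.inl h3⟩
      · have h2 := rl_eq.mp h
        have h3 := C.ln_pt w z q.2 y h2
        rw [h3] at h2
        exact ⟨h2, Or.inr h3⟩

theorem LM_ln (C : Cone Y U E G P R) (WF : U → E → ℝ) (WT : U → E → Y × Y → ℝ)
    (hF : ∀ w m, 0 ≤ WF w m) (hT : ∀ w m q, 0 ≤ WT w m q) (z : U) (y : Y) :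
    LM C WF WT (rl C z y) ≤ ∑ w ∈ univ.filter (fun w => C.ln w y = C.ln z y),
      ∑ m, ∑ q, (if q.1 = y ∨ q.2 = y then WT w m q else 0) := by
  unfold LM
  rw [Finset.sum_filter, Fintype.sum_prod_type, Finset.sum_filter]
  apply Finset.sum_le_sum
  intro w _
  rw [Fintype.sum_prod_type]
  by_cases h : C.ln w y = C.ln z y
  · rw [if_pos h]
    apply Finset.sum_le_sum
    intro m _
    rw [Fintype.sum_option]
    have h1 : (if useM C (w, m, none) (rl C z y) then wM WF WT (w, m, none) else 0) = 0 := by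
      apply if_neg
      intro h2
      obtain ⟨q, hq, _⟩ := use_ln C z y w m none h2
      exact absurd hq (by simp)
    rw [h1, zero_add]
    apply Finset.sum_le_sum
    intro q _
    by_cases h2 : useM C (w, m, some q) (rl C z y)
    · obtain ⟨q', hq', _, h3⟩ := use_ln C z y w m (some q) h2
      have h4 : q = q' := by simpa using hq'
      subst h4
      rw [if_pos h2, if_pos h3]
      unfold wM
      exact le_rfl
    · rw [if_neg h2]
      split_ifs
      · exact hT w m q
      · exact le_rfl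
  · rw [if_neg h]
    apply le_of_eq
    apply Finset.sum_eq_zero
    intro m _
    apply Finset.sum_eq_zero
    intro o _
    apply if_neg
    intro h2
    obtain ⟨q, _, h3, _⟩ := use_ln C z y w m o h2
    exact h h3

/-- there are at most `2 (k - 1)` ordered pairs with a given point -/
theorem pairs_fin (S : Finset Y) (y : Y) :
    (S.offDiag.filter (fun q => q.1 = y ∨ q.2 = y)).card ≤ 2 * (S.card - 1) := by
  by_cases hy : y ∈ S
  · have h1 : S.offDiag.filter (fun q => q.1 = y ∨ q.2 = y) ⊆
        (S.erase y).image (fun x => (y, x)) ∪ (S.erase y).image (fun x => (x, y)) := by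
      rintro ⟨x, x'⟩ hq
      rw [Finset.mem_filter, Finset.mem_offDiag] at hq
      obtain ⟨⟨h2, h3, h4⟩, h5⟩ := hq
      simp only at h2 h3 h4 h5
      rw [Finset.mem_union, Finset.mem_image, Finset.mem_image]
      rcases h5 with h5 | h5
      · left
        refine ⟨x', Finset.mem_erase.mpr ⟨?_, h3⟩, by rw [h5]⟩
        rintro rfl
        exact h4 h5
      · right
        refine ⟨x, Finset.mem_erase.mpr ⟨?_, h2⟩, by rw [h5]⟩
        rintro rfl
        exact h4 h5.symm
    refine (Finset.card_le_card h1).trans ((Finset.card_union_le _ _).trans ?_)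
    have h2 : (S.erase y).card = S.card - 1 := Finset.card_erase_of_mem hy
    have h3 := Finset.card_image_le (s := S.erase y) (f := fun x => (y, x))
    have h4 := Finset.card_image_le (s := S.erase y) (f := fun x => (x, y))
    omega
  · rw [Finset.card_eq_zero.mpr]
    · exact Nat.zero_le _
    · rw [Finset.filter_eq_empty_iff]
      rintro ⟨x, x'⟩ hq h5
      rw [Finset.mem_offDiag] at hq
      rcases h5 with h5 | h5
      · exact hy (h5 ▸ hq.1)
      · exact hy (h5 ▸ hq.2.1)

/-- the points of `l` in `Q1` -/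
noncomputable def pts1 (C : Cone Y U E G P R) (Q1 : Finset Y) (l : E) : Finset Y :=
  Q1.filter (fun y => C.on y l)

theorem tl_off (C : Cone Y U E G P R) (Q1 : Finset Y) (l : E) :
    C.tl l = C.offc Q1 l + (pts1 C Q1 l).card := C.tl_eq Q1 l

/-- the weights of the broken lines -/
noncomputable def WX (C : Cone Y U E G P R) (J : Finset E) (p : ℕ) (Q1 : Finset Y) (z : U) (l : E)
    (q : Y × Y) : ℝ :=
  if (C.Bad J z ∧ C.ok z l ∧ p ≤ C.tl l ∧ ¬ C.Usable p Q1 l) ∧ q ∈ (pts1 C Q1 l).offDiag then
    1 / (((Fintype.card Y : ℝ) - C.tl l) * (pts1 C Q1 l).offDiag.card) else 0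

/-- the weights of the fat lines -/
noncomputable def WF (C : Cone Y U E G P R) (p : ℕ) (Q1 : Finset Y) (z : U) (l : E) : ℝ :=
  if C.ok z l ∧ C.Usable p Q1 l then 1 / ((Fintype.card Y : ℝ) - C.tl l) else 0

section

variable {C : Cone Y U E G P R} {J : Finset E} {p : ℕ} {Q1 : Finset Y} {α β : E → Y}

theorem WF_nonneg (hNt : ∀ l, (C.tl l : ℝ) < Fintype.card Y) (z : U) (l : E) :
    0 ≤ WF C p Q1 z l := by
  unfold WF
  split_ifs
  · apply div_nonneg (by norm_num)
    linarith [hNt l]
  · exact le_rfl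

theorem WX_nonneg (hNt : ∀ l, (C.tl l : ℝ) < Fintype.card Y) (z : U) (l : E) (q : Y × Y) :
    0 ≤ WX C J p Q1 z l q := by
  unfold WX
  split_ifs
  · apply div_nonneg (by norm_num)
    apply mul_nonneg
    · linarith [hNt l]
    · positivity
  · exact le_rfl

/-- a broken line has many points in `Q1` -/
theorem broken_pts {l : E} (h1 : p ≤ C.tl l) (h2 : ¬ C.Usable p Q1 l) :
    p < 2 * (pts1 C Q1 l).card := by
  have h3 := tl_off C Q1 l
  have h4 : ¬ p ≤ 2 * C.offc Q1 l := fun h => h2 ⟨h1, h⟩
  omega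

theorem card_off_fin (S : Finset Y) :
    (S.offDiag.card : ℝ) = (S.card : ℝ) * ((S.card : ℝ) - 1) := by
  rw [Finset.offDiag_card]
  have h : S.card ≤ S.card * S.card := Nat.le_mul_self _
  rw [Nat.cast_sub h]
  push_cast
  ring

theorem sum_WX (hp : 4 ≤ p) (hNt : ∀ l, (C.tl l : ℝ) < Fintype.card Y) (z : U) (l : E) :
    ∑ q, WX C J p Q1 z l q = if C.Bad J z ∧ C.ok z l ∧ p ≤ C.tl l ∧ ¬ C.Usable p Q1 l then
      1 / ((Fintype.card Y : ℝ) - C.tl l) else 0 := by
  unfold WX
  by_cases h : C.Bad J z ∧ C.ok z l ∧ p ≤ C.tl l ∧ ¬ C.Usable p Q1 l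
  · rw [if_pos h]
    have h1 : ∀ q : Y × Y, (if (C.Bad J z ∧ C.ok z l ∧ p ≤ C.tl l ∧ ¬ C.Usable p Q1 l) ∧
        q ∈ (pts1 C Q1 l).offDiag then
        1 / (((Fintype.card Y : ℝ) - C.tl l) * (pts1 C Q1 l).offDiag.card) else 0) =
        if q ∈ (pts1 C Q1 l).offDiag then
        1 / (((Fintype.card Y : ℝ) - C.tl l) * (pts1 C Q1 l).offDiag.card) else 0 := by
      intro q
      simp only [h, not_false_eq_true, true_and]
    rw [Finset.sum_congr rfl (fun q _ => h1 q), ← Finset.sum_filter, Finset.sum_const,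
      nsmul_eq_mul]
    have h2 : univ.filter (fun q : Y × Y => q ∈ (pts1 C Q1 l).offDiag) =
        (pts1 C Q1 l).offDiag := by
      ext q
      simp
    rw [h2]
    have h3 : (0 : ℝ) < (pts1 C Q1 l).offDiag.card := by
      rw [card_off_fin]
      have h4 := broken_pts h.2.2.1 h.2.2.2
      have h5 : 2 ≤ (pts1 C Q1 l).card := by omega
      have h6 : (2 : ℝ) ≤ (pts1 C Q1 l).card := by exact_mod_cast h5
      have h7 : (0 : ℝ) < ((pts1 C Q1 l).card : ℝ) - 1 := by linarith
      positivity
    have h4 : (0 : ℝ) < (Fintype.card Y : ℝ) - C.tl l := by linarith [hNt l]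
    field_simp
  · rw [if_neg h]
    apply Finset.sum_eq_zero
    intro q _
    exact if_neg (fun h' => h h'.1)

/-- part of a broken line at a point -/
theorem pair_WX (hp : 4 ≤ p) {s : ℝ} (hs : ∀ l, (C.tl l : ℝ) ≤ s)
    (hNs : s < Fintype.card Y) (z : U) (l : E) (y : Y) :
    ∑ q, (if q.1 = y ∨ q.2 = y then WX C J p Q1 z l q else 0) ≤
      if C.on y l ∧ p ≤ C.tl l then 4 / (((Fintype.card Y : ℝ) - s) * p) else 0 := by
  have hpos : (0 : ℝ) < (Fintype.card Y : ℝ) - s := by linarith
  have hNt : ∀ l, (C.tl l : ℝ) < Fintype.card Y := fun l => (hs l).trans_lt hNs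
  have hpr : (4 : ℝ) ≤ p := by exact_mod_cast hp
  have hnn : (0 : ℝ) ≤ if C.on y l ∧ p ≤ C.tl l then 4 / (((Fintype.card Y : ℝ) - s) * p) else 0 := by
    split_ifs
    · positivity
    · exact le_rfl
  by_cases h : C.Bad J z ∧ C.ok z l ∧ p ≤ C.tl l ∧ ¬ C.Usable p Q1 l
  · have h1 : ∀ q : Y × Y, (if q.1 = y ∨ q.2 = y then WX C J p Q1 z l q else 0) =
        if q ∈ (pts1 C Q1 l).offDiag.filter (fun q => q.1 = y ∨ q.2 = y) then
        1 / (((Fintype.card Y : ℝ) - C.tl l) * (pts1 C Q1 l).offDiag.card) else 0 := by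
      intro q
      unfold WX
      simp only [h, not_false_eq_true, true_and, Finset.mem_filter]
      by_cases h2 : q.1 = y ∨ q.2 = y
      · by_cases h3 : q ∈ (pts1 C Q1 l).offDiag
        · rw [if_pos h2, if_pos h3, if_pos ⟨h3, h2⟩]
        · rw [if_pos h2, if_neg h3, if_neg (fun h4 => h3 h4.1)]
      · rw [if_neg h2, if_neg (fun h4 => h2 h4.2)]
    rw [Finset.sum_congr rfl (fun q _ => h1 q), ← Finset.sum_filter, Finset.sum_const,
      nsmul_eq_mul]
    have h2 : univ.filter (fun q : Y × Y => q ∈ (pts1 C Q1 l).offDiag.filter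
        (fun q => q.1 = y ∨ q.2 = y)) =
        (pts1 C Q1 l).offDiag.filter (fun q => q.1 = y ∨ q.2 = y) := by
      ext q
      simp
    rw [h2]
    by_cases hy : C.on y l
    · rw [if_pos ⟨hy, h.2.2.1⟩]
      have hb := broken_pts h.2.2.1 h.2.2.2
      have hk2 : 2 ≤ (pts1 C Q1 l).card := by omega
      set k : ℝ := ((pts1 C Q1 l).card : ℝ) with hk
      have hkr : (2 : ℝ) ≤ k := by
        rw [hk]
        exact_mod_cast hk2
      have hkp : (p : ℝ) / 2 ≤ k := by
        have h5 : (p : ℝ) < 2 * k := by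
          rw [hk]
          exact_mod_cast hb
        linarith
      have h3 : ((((pts1 C Q1 l).offDiag.filter (fun q => q.1 = y ∨ q.2 = y)).card : ℕ) : ℝ) ≤
          2 * (k - 1) := by
        have h4 := pairs_fin (pts1 C Q1 l) y
        have h6 : ((2 * ((pts1 C Q1 l).card - 1) : ℕ) : ℝ) = 2 * (k - 1) := by
          rw [Nat.cast_mul, Nat.cast_sub (by omega), hk]
          norm_num
        rw [← h6]
        exact_mod_cast h4
      have hk1 : (0 : ℝ) < k - 1 := by linarith
      have hNt' : (0 : ℝ) < (Fintype.card Y : ℝ) - C.tl l := by linarith [hNt l]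
      rw [card_off_fin]
      calc ((((pts1 C Q1 l).offDiag.filter (fun q => q.1 = y ∨ q.2 = y)).card : ℕ) : ℝ) *
            (1 / (((Fintype.card Y : ℝ) - C.tl l) * (k * (k - 1))))
          ≤ (2 * (k - 1)) * (1 / (((Fintype.card Y : ℝ) - C.tl l) * (k * (k - 1)))) := by
            apply mul_le_mul_of_nonneg_right h3 (by positivity)
        _ = 2 / (((Fintype.card Y : ℝ) - C.tl l) * k) := by
            field_simp
        _ ≤ 2 / (((Fintype.card Y : ℝ) - s) * (p / 2)) := by
            apply div_le_div_of_nonneg_left (by norm_num) (by positivity)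
            apply mul_le_mul _ hkp (by positivity) (by linarith)
            linarith [hs l]
        _ = 4 / (((Fintype.card Y : ℝ) - s) * p) := by
            field_simp
            norm_num
    · rw [if_neg (fun h' => hy h'.1)]
      have h3 : (pts1 C Q1 l).offDiag.filter (fun q => q.1 = y ∨ q.2 = y) = ∅ := by
        rw [Finset.filter_eq_empty_iff]
        rintro ⟨x, x'⟩ hq h5
        rw [Finset.mem_offDiag] at hq
        unfold pts1 at hq
        rw [Finset.mem_filter, Finset.mem_filter] at hq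
        rcases h5 with h5 | h5
        · exact hy (h5 ▸ hq.1.2)
        · exact hy (h5 ▸ hq.2.1.2)
      rw [h3, Finset.card_empty]
      simp
  · refine le_trans (le_of_eq ?_) hnn
    apply Finset.sum_eq_zero
    intro q _
    have h0 : WX C J p Q1 z l q = 0 := by
      unfold WX
      exact if_neg (fun h' => h h'.1)
    rw [h0, ite_self]

end

end Pool.Agent.Helper50.RF
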