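import Pool.Agent.Helper63.HM.Hall

/-!
# Rainbow matchings, three resources for every hyperedge
-/

set_option autoImplicit false
set_option linter.unusedSectionVars false

namespace Pool.Agent.Helper50.RF

open Finset

variable {V X Q : Type} [Fintype V]

open Classical in
/-- the load of a resource -/
noncomputable def ld (r1 r2 r3 : V → Q) (w : V → ℝ) (q : Q) : ℝ :=
  ∑ u ∈ univ.filter (fun u => r1 u = q ∨ r2 u = q ∨ r3 u = q), w u

theorem ld_nonneg (r1 r2 r3 : V → Q) (w : V → ℝ) (hw0 : ∀ v, 0 ≤ w v) (q : Q) :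
    0 ≤ ld r1 r2 r3 w q := Finset.sum_nonneg fun u _ => hw0 u

open Classical in
theorem rainbow3 [Finite X] [Finite Q] (col : V → X) (r1 r2 r3 : V → Q)
    (w : V → ℝ) (hw0 : ∀ v, 0 ≤ w v)
    (hw : ∀ v, 0 < w v → ld r1 r2 r3 w (r1 v) + ld r1 r2 r3 w (r2 v) + ld r1 r2 r3 w (r3 v) ≤ 1)
    (hx : ∀ x, 1 ≤ ∑ v ∈ univ.filter (fun v => col v = x), w v) :
    ∃ f : X → V, (∀ x, col (f x) = x) ∧ (∀ x, 0 < w (f x)) ∧
      ∀ x y, x ≠ y → ∀ q, ¬ ((r1 (f x) = q ∨ r2 (f x) = q ∨ r3 (f x) = q) ∧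
        (r1 (f y) = q ∨ r2 (f y) = q ∨ r3 (f y) = q)) := by
  have hfin : ∀ p : V → Prop, ∑ᶠ u ∈ {u | p u}, w u = ∑ u ∈ univ.filter p, w u := by
    intro p
    rw [finsum_mem_eq_finite_toFinset_sum _ (Set.toFinite _)]
    congr 1
    ext u
    simp
  have := Fintype.ofFinite Q
  apply Pool.Agent.Helper63.HM.rainbow
    (fun v q => r1 v = q ∨ r2 v = q ∨ r3 v = q) col w hw0
  · intro v hv
    have h1 : ∀ q, ∑ᶠ u ∈ {u | r1 u = q ∨ r2 u = q ∨ r3 u = q}, w u = ld r1 r2 r3 w q := by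
      intro q
      rw [hfin]
      unfold ld
      apply Finset.sum_congr _ (fun _ _ => rfl)
      ext u
      simp
    rw [finsum_mem_congr rfl (fun q _ => h1 q),
      finsum_mem_eq_finite_toFinset_sum _ (Set.toFinite _)]
    have h2 : (Set.toFinite {q | r1 v = q ∨ r2 v = q ∨ r3 v = q}).toFinset ⊆
        {r1 v} ∪ ({r2 v} ∪ {r3 v}) := by
      intro q hq
      rw [Set.Finite.mem_toFinset] at hq
      simp only [Finset.mem_union, Finset.mem_singleton]
      rcases hq with h | h | h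
      · exact Or.inl h.symm
      · exact Or.inr (Or.inl h.symm)
      · exact Or.inr (Or.inr h.symm)
    refine (Finset.sum_le_sum_of_subset_of_nonneg h2 (fun q _ _ =>
      ld_nonneg r1 r2 r3 w hw0 q)).trans ?_
    refine le_trans ?_ (hw v hv)
    have hu : ∀ A B : Finset Q, ∑ q ∈ A ∪ B, ld r1 r2 r3 w q ≤
        ∑ q ∈ A, ld r1 r2 r3 w q + ∑ q ∈ B, ld r1 r2 r3 w q := by
      intro A B
      have h3 := Finset.sum_union_inter (s₁ := A) (s₂ := B) (f := ld r1 r2 r3 w)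
      have h4 : 0 ≤ ∑ q ∈ A ∩ B, ld r1 r2 r3 w q :=
        Finset.sum_nonneg fun q _ => ld_nonneg r1 r2 r3 w hw0 q
      linarith
    have h3 := hu {r1 v} ({r2 v} ∪ {r3 v})
    have h4 := hu {r2 v} {r3 v}
    rw [Finset.sum_singleton] at h3 h4
    rw [Finset.sum_singleton] at h4
    linarith
  · intro x
    rw [hfin]
    convert hx x using 2

end Pool.Agent.Helper50.RF
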